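import Pool.Agent.Lib.MP_afdd4d_co.VS.A2
import Pool.Agent.Lib.MP_afdd4d_co.K9.TwVRow

/-!
# The structure at one vertex

The input of the local exactness: at a vertex of large degree, the link is close to the link of
Giraud's structure after a change of the colour and of the pairs of the vertex.
-/

namespace Pool.Agent.Lib.MP_afdd4d_co.VS

open Finset K8
open Pool.Agent.Lib.MP_afdd4d_co.K9.Star (gir)
open Pool.Agent.Lib.MP_afdd4d_co.K9.Star.Tw Pool.Agent.Lib.MP_afdd4d_co.K9.Star.Tw.W5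
open Pool.Agent.Lib.MP_afdd4d_co.K9.Star.VS (J updM dst dg k5v)

theorem hbadW (D : XW 5) (h : badW D = false) : FG D.c D.e D.l univ := by
  by_contra hn
  rw [(badW_iff D).mpr hn] at h
  exact absurd h (by decide)

/-- The vertex inequality, with real numbers. -/
theorem vrow_real : ∀ δ : ℝ, 0 < δ → ∃ η : ℝ, 0 < η ∧ ∃ N0 : ℕ, ∀ n : ℕ, N0 ≤ n →
    ∀ (χ : Fin n → Bool) (M : Fin n → Fin n → Bool) (H : Finset (Finset (Fin n))),
      (∀ e ∈ H, e.card = 4) → 11 / 16 - η ≤ K9.Star.e4 (G0 χ M) →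
      ((symmDiff H (G0 χ M)).card : ℝ) ≤ η * (n : ℝ) ^ 4 → ∀ x : Fin n,
      (30720 : ℝ) * (((univ : Finset (Fin 5 → Fin n)).filter fun t =>
        badW (xv χ M (K9.Star.Tw.lk H x) t) = true).card : ℝ) ≤
        110 * 6144 * (n : ℝ) ^ 5 - 960 * 6144 * ((K9.Star.Tw.lk H x).card : ℝ) * (n : ℝ) ^ 2 +
          188743680 * (n * ((k5x H x : ℕ) : ℝ)) + δ * (n : ℝ) ^ 5 := by
  intro δ hδ
  obtain ⟨η, hη, N0, h⟩ := vrow0 δ hδ
  refine ⟨η, hη, N0, fun n hn χ M H h4 hd hx x => ?_⟩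
  have h1 := h n hn χ M H h4 hd hx x
  push_cast at h1
  exact h1

/-- The input `InV`. -/
theorem inV : ∀ θ : ℝ, 0 < θ → ∃ η : ℝ, 0 < η ∧ ∃ N : ℕ, ∀ n : ℕ, N ≤ n →
    ∀ (χ : Fin n → Bool) (M : Fin n → Fin n → Bool) (H : Finset (Finset (Fin n))),
      (∀ e ∈ H, e.card = 4) →
      (11 / 16 - η) * ((n.choose 4 : ℕ) : ℝ) ≤
        ((gir χ M (fun _ => false) (fun _ => false)).card : ℝ) →
      (dst H χ M : ℝ) ≤ η * (n : ℝ) ^ 4 →
      ∀ x : Fin n, (11 / 96 - η) * (n : ℝ) ^ 3 + 32 / n * (k5v H x : ℝ) ≤ (dg H x : ℝ) →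
        ∃ (k : Bool) (m : Fin n → Bool),
          (J x H (Function.update χ x k) (updM M x m) : ℝ) ≤ θ * (n : ℝ) ^ 3 :=
  inV_of badW hbadW vrow_real

end Pool.Agent.Lib.MP_afdd4d_co.VS
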