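import Mathlib

/-!
MP_afdd4d_co, vertex part: seven points.

`c` is a colouring with two colours, `e` a function of the quadruples (the reference structure),
`l` a function of the triples (the link of a vertex).  In a flipped window the link agrees with the
link of Giraud's structures up to flips of the quadruples through pairs of vertices of the own
colour.
-/

set_option autoImplicit false

namespace Pool.Agent.Lib.MP_afdd4d_co.VS

open Finset

variable {V : Type*} [DecidableEq V]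

/-- the part of a flipped window that depends on the own colour `κ` -/
def PK (κ : Bool) (c : V → Bool) (l : Finset V → Bool) (W : Finset V) : Prop :=
  (∀ u ∈ W, ∀ u' ∈ W, ∀ b ∈ W, ∀ b' ∈ W, u ≠ u' → b ≠ b' → c u = κ → c u' = κ → c b = !κ →
    c b' = !κ → l {u, u', b} = l {u, u', b'}) ∧
  (∀ b ∈ W, ∀ b' ∈ W, ∀ b'' ∈ W, b ≠ b' → b ≠ b'' → b' ≠ b'' → c b = !κ → c b' = !κ →
    c b'' = !κ → l {b, b', b''} = true)

/-- the parity condition -/
def EV (e l : Finset V → Bool) (W : Finset V) : Prop :=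
  ∀ p ∈ W, ∀ q ∈ W, ∀ r ∈ W, ∀ s ∈ W, p ≠ q → p ≠ r → p ≠ s → q ≠ r → q ≠ s → r ≠ s →
    (l {p, q, r} ^^ l {p, q, s} ^^ l {p, r, s} ^^ l {q, r, s}) = e {p, q, r, s}

/-- a flipped window -/
def FG (c : V → Bool) (e l : Finset V → Bool) (W : Finset V) : Prop :=
  EV e l W ∧ (PK false c l W ∨ PK true c l W)

/-- the part of a Giraud window that depends on the own colour `κ` -/
def GK (κ : Bool) (c : V → Bool) (l : Finset V → Bool) (W : Finset V) : Prop :=
  PK κ c l W ∧
  (∀ u ∈ W, ∀ u' ∈ W, ∀ b ∈ W, u ≠ u' → c u = κ → c u' = κ → c b = !κ → l {u, u', b} = true) ∧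
  (∀ u ∈ W, ∀ u' ∈ W, ∀ u'' ∈ W, u ≠ u' → u ≠ u'' → u' ≠ u'' → c u = κ → c u' = κ → c u'' = κ →
    l {u, u', u''} = false)

/-- a Giraud window -/
def GI (c : V → Bool) (e l : Finset V → Bool) (W : Finset V) : Prop :=
  EV e l W ∧ (GK false c l W ∨ GK true c l W)

theorem GI.fg {c : V → Bool} {e l : Finset V → Bool} {W : Finset V} (h : GI c e l W) :
    FG c e l W := ⟨h.1, h.2.imp (fun h => h.1) fun h => h.1⟩

/-- a marked quadruple -/
def Mk (e l : Finset V → Bool) (u u' b b' : V) : Prop :=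
  e {u, u', b, b'} = true ∧ l {u, u', b} = l {u, u', b'}

theorem l_rot (l : Finset V → Bool) (p q r : V) : l {p, q, r} = l {q, r, p} := by
  congr 1
  rw [insert_comm, pair_comm p r]

theorem l_swap (l : Finset V → Bool) (p q r : V) : l {p, q, r} = l {q, p, r} := by
  congr 1
  rw [insert_comm]

theorem l_swap' (l : Finset V → Bool) (p q r : V) : l {p, q, r} = l {p, r, q} := by
  congr 1
  rw [pair_comm]

section win
variable {κ : Bool} {c : V → Bool} {e l : Finset V → Bool} {W : Finset V} {u u' b b' : V}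

theorem not_pk_of_mk (hE : EV e l W) (hu : u ∈ W) (hu' : u' ∈ W) (hb : b ∈ W) (hb' : b' ∈ W)
    (h1 : u ≠ u') (h2 : b ≠ b') (cu : c u = κ) (cu' : c u' = κ) (cb : c b = !κ) (cb' : c b' = !κ)
    (hm : Mk e l u u' b b') : ¬ PK (!κ) c l W := by
  intro hP
  have ne : ∀ x y : V, c x = κ → c y = !κ → x ≠ y := by
    rintro x y hx hy rfl
    rw [hx] at hy
    cases κ <;> simp at hy
  have e1 := hE u hu u' hu' b hb b' hb' h1 (ne _ _ cu cb) (ne _ _ cu cb') (ne _ _ cu' cb)
    (ne _ _ cu' cb') h2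
  have e2 := hP.1 b hb b' hb' u hu u' hu' h2 h1 cb cb' (by rw [cu]; simp) (by rw [cu']; simp)
  rw [← l_rot l u b b', ← l_rot l u' b b'] at e2
  rw [hm.1, hm.2, e2] at e1
  revert e1
  generalize l {u, u', b'} = x
  generalize l {u', b, b'} = y
  cases x <;> cases y <;> simp

theorem pk_of_mk (hF : FG c e l W) (hu : u ∈ W) (hu' : u' ∈ W) (hb : b ∈ W) (hb' : b' ∈ W)
    (h1 : u ≠ u') (h2 : b ≠ b') (cu : c u = κ) (cu' : c u' = κ) (cb : c b = !κ) (cb' : c b' = !κ)
    (hm : Mk e l u u' b b') : PK κ c l W := by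
  have h := not_pk_of_mk hF.1 hu hu' hb hb' h1 h2 cu cu' cb cb' hm
  cases κ
  · exact hF.2.resolve_right h
  · exact hF.2.resolve_left h

theorem gk_of_mk (hF : GI c e l W) (hu : u ∈ W) (hu' : u' ∈ W) (hb : b ∈ W) (hb' : b' ∈ W)
    (h1 : u ≠ u') (h2 : b ≠ b') (cu : c u = κ) (cu' : c u' = κ) (cb : c b = !κ) (cb' : c b' = !κ)
    (hm : Mk e l u u' b b') : GK κ c l W := by
  have h := not_pk_of_mk hF.1 hu hu' hb hb' h1 h2 cu cu' cb cb' hm
  cases κ
  · exact hF.2.resolve_right fun h2 => h h2.1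
  · exact hF.2.resolve_left fun h2 => h h2.1

end win

/-- The reference structure: the quadruples with one vertex of colour `κ` and three of the other
colour, and the quadruples with two vertices of each colour, `z` being the bipartite graph. -/
structure Rf (κ : Bool) (c : V → Bool) (e : Finset V → Bool) (z : V → V → Bool) : Prop where
  e3 : ∀ a b b' b'' : V, b ≠ b' → b ≠ b'' → b' ≠ b'' → c a = κ → c b = !κ → c b' = !κ →
    c b'' = !κ → e {a, b, b', b''} = true
  e2 : ∀ u u' b b' : V, u ≠ u' → b ≠ b' → c u = κ → c u' = κ → c b = !κ → c b' = !κ →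
    e {u, u', b, b'} = (z u b ^^ z u b' ^^ z u' b ^^ z u' b')

section seven
variable {κ : Bool} {c : V → Bool} {e l : Finset V → Bool} {z : V → V → Bool}

omit [DecidableEq V] in
theorem ne_of_col {x y : V} (hx : c x = κ) (hy : c y = !κ) : x ≠ y := by
  rintro rfl
  rw [hx] at hy
  cases κ <;> simp at hy

/-- the cut condition in a window of type `κ` -/
theorem cut_of_pk (hR : Rf κ c e z) {W : Finset V} (hE : EV e l W) (hP : PK κ c l W)
    {a d d' d'' : V} (ha : a ∈ W) (hd : d ∈ W) (hd' : d' ∈ W) (hd'' : d'' ∈ W)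
    (h1 : d ≠ d') (h2 : d ≠ d'') (h3 : d' ≠ d'') (ca : c a = κ) (cd : c d = !κ) (cd' : c d' = !κ)
    (cd'' : c d'' = !κ) : (l {a, d, d'} ^^ l {a, d, d''} ^^ l {a, d', d''}) = false := by
  have e1 := hE a ha d hd d' hd' d'' hd'' (ne_of_col ca cd) (ne_of_col ca cd') (ne_of_col ca cd'')
    h1 h2 h3
  rw [hR.e3 a d d' d'' h1 h2 h3 ca cd cd' cd'', hP.2 d hd d' hd' d'' hd'' h1 h2 h3 cd cd' cd''] at e1
  revert e1
  generalize l {a, d, d'} = x
  generalize l {a, d, d''} = y
  generalize l {a, d', d''} = w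
  cases x <;> cases y <;> cases w <;> simp

/-- two vertices of the own colour in a window of type `κ` -/
theorem two_of_pk {W : Finset V} (hE : EV e l W) (hP : PK κ c l W)
    {a a' d d' : V} (ha : a ∈ W) (ha' : a' ∈ W) (hd : d ∈ W) (hd' : d' ∈ W)
    (h1 : a ≠ a') (h2 : d ≠ d') (ca : c a = κ) (ca' : c a' = κ) (cd : c d = !κ)
    (cd' : c d' = !κ) : l {a', d, d'} = (l {a, d, d'} ^^ e {a, a', d, d'}) := by
  have e1 := hE a ha a' ha' d hd d' hd' h1 (ne_of_col ca cd) (ne_of_col ca cd') (ne_of_col ca' cd)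
    (ne_of_col ca' cd') h2
  rw [hP.1 a ha a' ha' d hd d' hd' h1 h2 ca ca' cd cd'] at e1
  rw [← e1]
  generalize l {a, a', d'} = x
  generalize l {a, d, d'} = y
  generalize l {a', d, d'} = w
  cases x <;> cases y <;> cases w <;> rfl

/-- a marked quadruple in a flipped window -/
theorem mk_of_pk {W : Finset V} (hP : PK κ c l W)
    {a a' d d' : V} (ha : a ∈ W) (ha' : a' ∈ W) (hd : d ∈ W) (hd' : d' ∈ W)
    (h1 : a ≠ a') (h2 : d ≠ d') (ca : c a = κ) (ca' : c a' = κ) (cd : c d = !κ)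
    (cd' : c d' = !κ) (he : e {a, a', d, d'} = true) : Mk e l a a' d d' :=
  ⟨he, hP.1 a ha a' ha' d hd d' hd' h1 h2 ca ca' cd cd'⟩

/-- the cut condition at `a` -/
theorem cutA (hR : Rf κ c e z) {u a b0 b1 b b' : V} (cu : c u = κ) (ca : c a = κ)
    (c0 : c b0 = !κ) (c1 : c b1 = !κ) (cb : c b = !κ) (cb' : c b' = !κ) (hua : u ≠ a)
    (h01 : b0 ≠ b1) (h0b : b0 ≠ b) (h0b' : b0 ≠ b') (h1b : b1 ≠ b) (h1b' : b1 ≠ b')
    (hbb : b ≠ b') (hm : Mk e l u a b0 b1)
    (F1 : FG c e l {u, a, b0, b1, b}) (F2 : FG c e l {u, a, b0, b1, b'})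
    (F3 : FG c e l {u, a, b0, b, b'}) (F4 : FG c e l {u, a, b1, b, b'}) :
    l {a, b, b'} = (l {a, b0, b} ^^ l {a, b0, b'}) := by
  have P1 := pk_of_mk F1 (u := u) (u' := a) (b := b0) (b' := b1) (by simp) (by simp) (by simp)
    (by simp) hua h01 cu ca c0 c1 hm
  have P2 := pk_of_mk F2 (u := u) (u' := a) (b := b0) (b' := b1) (by simp) (by simp) (by simp)
    (by simp) hua h01 cu ca c0 c1 hm
  by_cases q1 : e {u, a, b0, b} = true
  · have m1 := mk_of_pk (e := e) P1 (a := u) (a' := a) (d := b0) (d' := b) (by simp) (by simp)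
      (by simp) (by simp) hua h0b cu ca c0 cb q1
    have P3 := pk_of_mk F3 (u := u) (u' := a) (b := b0) (b' := b) (by simp) (by simp) (by simp)
      (by simp) hua h0b cu ca c0 cb m1
    have k := cut_of_pk hR F3.1 P3 (a := a) (d := b0) (d' := b) (d'' := b') (by simp) (by simp)
      (by simp) (by simp) h0b h0b' hbb ca c0 cb cb'
    revert k
    generalize l {a, b0, b} = x
    generalize l {a, b0, b'} = y
    generalize l {a, b, b'} = w
    cases x <;> cases y <;> cases w <;> simp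
  by_cases q2 : e {u, a, b0, b'} = true
  · have m1 := mk_of_pk (e := e) P2 (a := u) (a' := a) (d := b0) (d' := b') (by simp) (by simp)
      (by simp) (by simp) hua h0b' cu ca c0 cb' q2
    have P3 := pk_of_mk F3 (u := u) (u' := a) (b := b0) (b' := b') (by simp) (by simp) (by simp)
      (by simp) hua h0b' cu ca c0 cb' m1
    have k := cut_of_pk hR F3.1 P3 (a := a) (d := b0) (d' := b) (d'' := b') (by simp) (by simp)
      (by simp) (by simp) h0b h0b' hbb ca c0 cb cb'
    revert k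
    generalize l {a, b0, b} = x
    generalize l {a, b0, b'} = y
    generalize l {a, b, b'} = w
    cases x <;> cases y <;> cases w <;> simp
  have q3 : e {u, a, b1, b} = true := by
    have g1 := hm.1
    rw [hR.e2 u a b0 b1 hua h01 cu ca c0 c1] at g1
    rw [hR.e2 u a b0 b hua h0b cu ca c0 cb] at q1
    rw [hR.e2 u a b1 b hua h1b cu ca c1 cb]
    revert g1 q1
    generalize z u b0 = x1
    generalize z u b1 = x2
    generalize z u b = x3
    generalize z a b0 = x4
    generalize z a b1 = x5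
    generalize z a b = x6
    cases x1 <;> cases x2 <;> cases x3 <;> cases x4 <;> cases x5 <;> cases x6 <;> simp
  have m1 := mk_of_pk (e := e) P1 (a := u) (a' := a) (d := b1) (d' := b) (by simp) (by simp)
    (by simp) (by simp) hua h1b cu ca c1 cb q3
  have P4 := pk_of_mk F4 (u := u) (u' := a) (b := b1) (b' := b) (by simp) (by simp) (by simp)
    (by simp) hua h1b cu ca c1 cb m1
  have k1 := cut_of_pk hR F4.1 P4 (a := a) (d := b1) (d' := b) (d'' := b') (by simp) (by simp)
    (by simp) (by simp) h1b h1b' hbb ca c1 cb cb'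
  have k2 := cut_of_pk hR F1.1 P1 (a := a) (d := b0) (d' := b1) (d'' := b) (by simp) (by simp)
    (by simp) (by simp) h01 h0b h1b ca c0 c1 cb
  have k3 := cut_of_pk hR F2.1 P2 (a := a) (d := b0) (d' := b1) (d'' := b') (by simp) (by simp)
    (by simp) (by simp) h01 h0b' h1b' ca c0 c1 cb'
  revert k1 k2 k3
  generalize l {a, b1, b} = x1
  generalize l {a, b1, b'} = x2
  generalize l {a, b, b'} = x3
  generalize l {a, b0, b1} = x4
  generalize l {a, b0, b} = x5
  generalize l {a, b0, b'} = x6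
  cases x1 <;> cases x2 <;> cases x3 <;> cases x4 <;> cases x5 <;> cases x6 <;> simp

/-- the row of the new vertex -/
def row (z : V → V → Bool) (l : Finset V → Bool) (u0 b0 y : V) : Bool :=
  l {u0, b0, y} ^^ z u0 y ^^ z u0 b0

theorem card5 {p q r s t : V} (h1 : p ≠ q) (h2 : p ≠ r) (h3 : p ≠ s) (h4 : p ≠ t) (h5 : q ≠ r)
    (h6 : q ≠ s) (h7 : q ≠ t) (h8 : r ≠ s) (h9 : r ≠ t) (h10 : s ≠ t) :
    ({p, q, r, s, t} : Finset V).card = 5 := by
  rw [card_insert_of_notMem (by simp [h1, h2, h3, h4]), card_insert_of_notMem (by simp [h5, h6, h7]),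
    card_insert_of_notMem (by simp [h8, h9]), card_insert_of_notMem (by simp [h10]), card_singleton]

/-- The first statement about seven points. -/
theorem sevenA (hR : Rf κ c e z) {u0 u1 a b0 b1 b b' : V} (cu0 : c u0 = κ) (cu1 : c u1 = κ)
    (ca : c a = κ) (c0 : c b0 = !κ) (c1 : c b1 = !κ) (cb : c b = !κ) (cb' : c b' = !κ)
    (h01u : u0 ≠ u1) (h0a : u0 ≠ a) (h1a : u1 ≠ a)
    (h01 : b0 ≠ b1) (h0b : b0 ≠ b) (h0b' : b0 ≠ b') (h1b : b1 ≠ b) (h1b' : b1 ≠ b')
    (hbb : b ≠ b') (hm : Mk e l u0 u1 b0 b1)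
    (F : ∀ W ⊆ ({u0, u1, a, b0, b1, b, b'} : Finset V), W.card = 5 → FG c e l W) :
    l {a, b, b'} = (row z l u0 b0 b ^^ row z l u0 b0 b' ^^ z a b ^^ z a b') := by
  have n : ∀ {x y : V}, c x = κ → c y = !κ → x ≠ y := fun h1 h2 => ne_of_col h1 h2
  have F5 : ∀ {p q r s t : V}, p ≠ q → p ≠ r → p ≠ s → p ≠ t → q ≠ r → q ≠ s → q ≠ t → r ≠ s →
      r ≠ t → s ≠ t → ({p, q, r, s, t} : Finset V) ⊆ {u0, u1, a, b0, b1, b, b'} →
      FG c e l {p, q, r, s, t} := by
    intro p q r s t h1 h2 h3 h4 h5 h6 h7 h8 h9 h10 hs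
    exact F _ hs (card5 h1 h2 h3 h4 h5 h6 h7 h8 h9 h10)
  have W0 := F5 h01u (n cu0 c0) (n cu0 c1) h0a (n cu1 c0) (n cu1 c1) h1a h01 (n ca c0).symm
    (n ca c1).symm (by intro y hy; simp only [mem_insert, mem_singleton] at hy ⊢; tauto)
  have P0 := pk_of_mk W0 (u := u0) (u' := u1) (b := b0) (b' := b1) (by simp) (by simp) (by simp)
    (by simp) h01u h01 cu0 cu1 c0 c1 hm
  -- the windows with two of the first vertices
  have WU : ∀ u : V, u = u0 ∨ u = u1 → u ≠ a → c u = κ → Mk e l u a b0 b1 →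
      (l {a, b, b'} = (l {a, b0, b} ^^ l {a, b0, b'})) ∧
      (l {a, b0, b} = (l {u, b0, b} ^^ e {u, a, b0, b})) ∧
      (l {a, b0, b'} = (l {u, b0, b'} ^^ e {u, a, b0, b'})) := by
    intro u hu hua cu hmu
    have S : ∀ y, y = u ∨ y = a ∨ y = b0 ∨ y = b1 ∨ y = b ∨ y = b' →
        y ∈ ({u0, u1, a, b0, b1, b, b'} : Finset V) := by
      intro y hy
      simp only [mem_insert, mem_singleton]
      rcases hy with rfl | hy
      · tauto
      · tauto
    have F1 := F5 hua (n cu c0) (n cu c1) (n cu cb) (n ca c0) (n ca c1) (n ca cb) h01 h0b h1b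
      (by intro y hy; apply S; simp only [mem_insert, mem_singleton] at hy; tauto)
    have F2 := F5 hua (n cu c0) (n cu c1) (n cu cb') (n ca c0) (n ca c1) (n ca cb') h01 h0b' h1b'
      (by intro y hy; apply S; simp only [mem_insert, mem_singleton] at hy; tauto)
    have F3 := F5 hua (n cu c0) (n cu cb) (n cu cb') (n ca c0) (n ca cb) (n ca cb') h0b h0b' hbb
      (by intro y hy; apply S; simp only [mem_insert, mem_singleton] at hy; tauto)
    have F4 := F5 hua (n cu c1) (n cu cb) (n cu cb') (n ca c1) (n ca cb) (n ca cb') h1b h1b' hbb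
      (by intro y hy; apply S; simp only [mem_insert, mem_singleton] at hy; tauto)
    have P1 := pk_of_mk F1 (u := u) (u' := a) (b := b0) (b' := b1) (by simp) (by simp) (by simp)
      (by simp) hua h01 cu ca c0 c1 hmu
    have P2 := pk_of_mk F2 (u := u) (u' := a) (b := b0) (b' := b1) (by simp) (by simp) (by simp)
      (by simp) hua h01 cu ca c0 c1 hmu
    refine ⟨cutA hR cu ca c0 c1 cb cb' hua h01 h0b h0b' h1b h1b' hbb hmu F1 F2 F3 F4, ?_, ?_⟩
    · exact two_of_pk F1.1 P1 (by simp) (by simp) (by simp) (by simp) hua h0b cu ca c0 cb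
    · exact two_of_pk F2.1 P2 (by simp) (by simp) (by simp) (by simp) hua h0b' cu ca c0 cb'
  by_cases q : e {u0, a, b0, b1} = true
  · obtain ⟨k1, k2, k3⟩ := WU u0 (Or.inl rfl) h0a cu0
      (mk_of_pk P0 (by simp) (by simp) (by simp) (by simp) h0a h01 cu0 ca c0 c1 q)
    rw [hR.e2 u0 a b0 b h0a h0b cu0 ca c0 cb] at k2
    rw [hR.e2 u0 a b0 b' h0a h0b' cu0 ca c0 cb'] at k3
    rw [k1, k2, k3]
    unfold row
    generalize l {u0, b0, b} = x1
    generalize l {u0, b0, b'} = x2
    generalize z u0 b0 = x3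
    generalize z u0 b = x4
    generalize z u0 b' = x5
    generalize z a b0 = x6
    generalize z a b = x7
    generalize z a b' = x8
    cases x1 <;> cases x2 <;> cases x3 <;> cases x4 <;> cases x5 <;> cases x6 <;> cases x7 <;>
      cases x8 <;> rfl
  · have q' : e {u1, a, b0, b1} = true := by
      have g1 := hm.1
      rw [hR.e2 u0 u1 b0 b1 h01u h01 cu0 cu1 c0 c1] at g1
      rw [hR.e2 u0 a b0 b1 h0a h01 cu0 ca c0 c1] at q
      rw [hR.e2 u1 a b0 b1 h1a h01 cu1 ca c0 c1]
      revert g1 q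
      generalize z u0 b0 = x1
      generalize z u0 b1 = x2
      generalize z u1 b0 = x3
      generalize z u1 b1 = x4
      generalize z a b0 = x5
      generalize z a b1 = x6
      cases x1 <;> cases x2 <;> cases x3 <;> cases x4 <;> cases x5 <;> cases x6 <;> simp
    obtain ⟨k1, k2, k3⟩ := WU u1 (Or.inr rfl) h1a cu1
      (mk_of_pk P0 (by simp) (by simp) (by simp) (by simp) h1a h01 cu1 ca c0 c1 q')
    -- the windows with `u0`, `u1`
    have V1 := F5 h01u (n cu0 c0) (n cu0 c1) (n cu0 cb) (n cu1 c0) (n cu1 c1) (n cu1 cb) h01 h0b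
      h1b (by intro y hy; simp only [mem_insert, mem_singleton] at hy ⊢; tauto)
    have V2 := F5 h01u (n cu0 c0) (n cu0 c1) (n cu0 cb') (n cu1 c0) (n cu1 c1) (n cu1 cb') h01 h0b'
      h1b' (by intro y hy; simp only [mem_insert, mem_singleton] at hy ⊢; tauto)
    have R1 := pk_of_mk V1 (u := u0) (u' := u1) (b := b0) (b' := b1) (by simp) (by simp) (by simp)
      (by simp) h01u h01 cu0 cu1 c0 c1 hm
    have R2 := pk_of_mk V2 (u := u0) (u' := u1) (b := b0) (b' := b1) (by simp) (by simp) (by simp)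
      (by simp) h01u h01 cu0 cu1 c0 c1 hm
    have j1 := two_of_pk V1.1 R1 (a := u0) (a' := u1) (d := b0) (d' := b) (by simp) (by simp)
      (by simp) (by simp) h01u h0b cu0 cu1 c0 cb
    have j2 := two_of_pk V2.1 R2 (a := u0) (a' := u1) (d := b0) (d' := b') (by simp) (by simp)
      (by simp) (by simp) h01u h0b' cu0 cu1 c0 cb'
    rw [hR.e2 u1 a b0 b h1a h0b cu1 ca c0 cb, j1, hR.e2 u0 u1 b0 b h01u h0b cu0 cu1 c0 cb] at k2
    rw [hR.e2 u1 a b0 b' h1a h0b' cu1 ca c0 cb', j2, hR.e2 u0 u1 b0 b' h01u h0b' cu0 cu1 c0 cb']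
      at k3
    rw [k1, k2, k3]
    unfold row
    generalize l {u0, b0, b} = x1
    generalize l {u0, b0, b'} = x2
    generalize z u0 b0 = x3
    generalize z u0 b = x4
    generalize z u0 b' = x5
    generalize z a b0 = x6
    generalize z a b = x7
    generalize z a b' = x8
    generalize z u1 b0 = x9
    generalize z u1 b = x10
    generalize z u1 b' = x11
    cases x1 <;> cases x2 <;> cases x3 <;> cases x4 <;> cases x5 <;> cases x6 <;> cases x7 <;>
      cases x8 <;> cases x9 <;> cases x10 <;> cases x11 <;> rfl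

end seven

end Pool.Agent.Lib.MP_afdd4d_co.VS
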