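import Pool.Agent.Lib.MP_afdd4d_co.VS.Seven

/-!
MP_afdd4d_co, vertex part: windows as data on five points.
-/

set_option autoImplicit false

namespace Pool.Agent.Lib.MP_afdd4d_co.VS

open Finset

section pull
variable {V W : Type*} [DecidableEq V] [DecidableEq W]
variable {κ : Bool} {c : V → Bool} {e l : Finset V → Bool} {c' : W → Bool}
  {e' l' : Finset W → Bool} {t : W → V} {S : Finset W}

theorem img_three (t : W → V) (i j k : W) :
    ({t i, t j, t k} : Finset V) = ({i, j, k} : Finset W).image t := by
  rw [image_insert, image_insert, image_singleton]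

theorem img_four (t : W → V) (i j k m : W) :
    ({t i, t j, t k, t m} : Finset V) = ({i, j, k, m} : Finset W).image t := by
  rw [image_insert, image_insert, image_insert, image_singleton]

theorem card_three {i j k : W} (h1 : i ≠ j) (h2 : i ≠ k) (h3 : j ≠ k) :
    ({i, j, k} : Finset W).card = 3 := card_eq_three.mpr ⟨i, j, k, h1, h2, h3, rfl⟩

theorem card_four' {p q r s : W} (hpq : p ≠ q) (hpr : p ≠ r) (hps : p ≠ s)
    (hqr : q ≠ r) (hqs : q ≠ s) (hrs : r ≠ s) : ({p, q, r, s} : Finset W).card = 4 := by
  rw [card_insert_of_notMem (by simp [hpq, hpr, hps]), card_insert_of_notMem (by simp [hqr, hqs]),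
    card_insert_of_notMem (by simp [hrs]), card_singleton]

theorem EV_image (he : ∀ Q : Finset W, Q.card = 4 → e' Q = e (Q.image t))
    (hl : ∀ T : Finset W, T.card = 3 → l' T = l (T.image t)) (h : EV e' l' S) :
    EV e l (S.image t) := by
  intro p hp q hq r hr s hs hpq hpr hps hqr hqs hrs
  obtain ⟨i, hi, rfl⟩ := mem_image.mp hp
  obtain ⟨j, hj, rfl⟩ := mem_image.mp hq
  obtain ⟨k, hk, rfl⟩ := mem_image.mp hr
  obtain ⟨m, hm, rfl⟩ := mem_image.mp hs
  have dij : i ≠ j := fun h => hpq (by rw [h])
  have dik : i ≠ k := fun h => hpr (by rw [h])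
  have dim : i ≠ m := fun h => hps (by rw [h])
  have djk : j ≠ k := fun h => hqr (by rw [h])
  have djm : j ≠ m := fun h => hqs (by rw [h])
  have dkm : k ≠ m := fun h => hrs (by rw [h])
  have k1 := h i hi j hj k hk m hm dij dik dim djk djm dkm
  rw [he _ (card_four' dij dik dim djk djm dkm), hl _ (card_three dij dik djk),
    hl _ (card_three dij dim djm), hl _ (card_three dik dim dkm), hl _ (card_three djk djm dkm)]
    at k1
  rw [img_four t, img_three t, img_three t, img_three t, img_three t]
  exact k1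

theorem PK_image (hc : ∀ i, c' i = c (t i))
    (hl : ∀ T : Finset W, T.card = 3 → l' T = l (T.image t)) (h : PK κ c' l' S) :
    PK κ c l (S.image t) := by
  refine ⟨?_, ?_⟩
  · intro p hp q hq r hr s hs hpq hrs cp cq cr cs
    obtain ⟨i, hi, rfl⟩ := mem_image.mp hp
    obtain ⟨j, hj, rfl⟩ := mem_image.mp hq
    obtain ⟨k, hk, rfl⟩ := mem_image.mp hr
    obtain ⟨m, hm, rfl⟩ := mem_image.mp hs
    have dij : i ≠ j := fun h => hpq (by rw [h])
    have dkm : k ≠ m := fun h => hrs (by rw [h])
    have ci : c' i = κ := by rw [hc]; exact cp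
    have cj : c' j = κ := by rw [hc]; exact cq
    have ck : c' k = !κ := by rw [hc]; exact cr
    have cm : c' m = !κ := by rw [hc]; exact cs
    have ne : ∀ {x y : W}, c' x = κ → c' y = !κ → x ≠ y := by
      rintro x y hx hy rfl
      rw [hx] at hy
      cases κ <;> simp at hy
    have k1 := h.1 i hi j hj k hk m hm dij dkm ci cj ck cm
    rw [hl _ (card_three dij (ne ci ck) (ne cj ck)), hl _ (card_three dij (ne ci cm) (ne cj cm))]
      at k1
    rw [img_three t, img_three t]
    exact k1
  · intro p hp q hq r hr hpq hpr hqr cp cq cr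
    obtain ⟨i, hi, rfl⟩ := mem_image.mp hp
    obtain ⟨j, hj, rfl⟩ := mem_image.mp hq
    obtain ⟨k, hk, rfl⟩ := mem_image.mp hr
    have dij : i ≠ j := fun h => hpq (by rw [h])
    have dik : i ≠ k := fun h => hpr (by rw [h])
    have djk : j ≠ k := fun h => hqr (by rw [h])
    have k1 := h.2 i hi j hj k hk dij dik djk (by rw [hc]; exact cp) (by rw [hc]; exact cq)
      (by rw [hc]; exact cr)
    rw [hl _ (card_three dij dik djk)] at k1
    rw [img_three t]
    exact k1

/-- A flipped window from the data on five points. -/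
theorem FG_image (hc : ∀ i, c' i = c (t i))
    (he : ∀ Q : Finset W, Q.card = 4 → e' Q = e (Q.image t))
    (hl : ∀ T : Finset W, T.card = 3 → l' T = l (T.image t)) (h : FG c' e' l' S) :
    FG c e l (S.image t) :=
  ⟨EV_image he hl h.1, h.2.imp (fun h => PK_image hc hl h) fun h => PK_image hc hl h⟩

end pull

end Pool.Agent.Lib.MP_afdd4d_co.VS
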