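import Pool.Agent.Lib.MP_afdd4d_co.VS.V1
import Pool.Agent.Lib.MP_afdd4d_co.VS.Pull
import Pool.Agent.Lib.MP_afdd4d_co.K9.TwVC
import Pool.Agent.Lib.MP_afdd4d_co.K9.TAq12
import Pool.Agent.Lib.MP_afdd4d_co.K9.TAOpt

/-!
MP_afdd4d_co, vertex part: the vertex lemma from the inequality for the windows at a vertex.
-/

set_option autoImplicit false

namespace Pool.Agent.Lib.MP_afdd4d_co.VS

open Finset
open Pool.Agent.Lib.MP_afdd4d_co.K9.Star (gir girB girB_map)
open Pool.Agent.Lib.MP_afdd4d_co.K9.Star.Tw (XW xv dt eL G0 k5x)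
open Pool.Agent.Lib.MP_afdd4d_co.K9.Star.VS (J updM dst dg k5v link_card q12 ca)

section fin
variable {n : ℕ}

/-- The data of an injective tuple. -/
theorem FG_of_xv (χ : Fin n → Bool) (M : Fin n → Fin n → Bool) (H : Finset (Finset (Fin n)))
    (x : Fin n) (t : Fin 5 → Fin n) (ht : Function.Injective t)
    (h : FG (xv χ M (K9.Star.Tw.lk H x) t).c (xv χ M (K9.Star.Tw.lk H x) t).e
      (xv χ M (K9.Star.Tw.lk H x) t).l univ) :
    FG χ (g0B χ M) (lB H x) (univ.image t) := by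
  refine FG_image (fun i => rfl) (fun Q hQ => ?_) (fun T _ => rfl) h
  show eL (dt χ M t).1 (dt χ M t).2 Q = girB χ M (fun _ => false) (fun _ => false) (Q.image t)
  unfold eL
  rw [decide_eq_true hQ, Bool.true_and, girB_map χ M _ _ t ht Q]
  refine Pool.Agent.Lib.MP_afdd4d_co.K9.Star.Tw.girB_congr _ _ _ _ _ _ fun a b ha hb => ?_
  show (!χ (t a) && (χ (t b) && M (t a) (t b))) = M (t a) (t b)
  have ha' : χ (t a) = false := ha
  have hb' : χ (t b) = true := hb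
  rw [ha', hb']
  simp

theorem of_mem_badT {bad : Finset (Fin n) → Prop} {t : Fin 5 → Fin n} (h : t ∈ badT bad) :
    Function.Injective t ∧ bad (univ.image t) := by
  classical
  unfold badT at h
  rw [mem_filter] at h
  exact h.2

/-- The number of bad windows. -/
theorem badT_le (bad : XW 5 → Bool) (hbad : ∀ D : XW 5, bad D = false → FG D.c D.e D.l univ)
    (χ : Fin n → Bool) (M : Fin n → Fin n → Bool) (H : Finset (Finset (Fin n))) (x : Fin n) :
    (badT fun W => ¬ FG χ (g0B χ M) (lB H x) W).card ≤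
      ((univ : Finset (Fin 5 → Fin n)).filter fun t =>
        bad (xv χ M (K9.Star.Tw.lk H x) t) = true).card := by
  refine card_le_card fun t ht => ?_
  have ht' := of_mem_badT ht
  rw [mem_filter]
  refine ⟨mem_univ _, ?_⟩
  by_contra hno
  rw [Bool.not_eq_true] at hno
  exact ht'.2 (FG_of_xv χ M H x t ht'.1 (hbad _ hno))

end fin

/-- The vertex lemma. -/
theorem inV_of (bad : XW 5 → Bool) (hbad : ∀ D : XW 5, bad D = false → FG D.c D.e D.l univ)
    (hV : ∀ δ : ℝ, 0 < δ → ∃ η : ℝ, 0 < η ∧ ∃ N0 : ℕ, ∀ n : ℕ, N0 ≤ n →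
      ∀ (χ : Fin n → Bool) (M : Fin n → Fin n → Bool) (H : Finset (Finset (Fin n))),
        (∀ e ∈ H, e.card = 4) → 11 / 16 - η ≤ K9.Star.e4 (G0 χ M) →
        ((symmDiff H (G0 χ M)).card : ℝ) ≤ η * (n : ℝ) ^ 4 → ∀ x : Fin n,
        (30720 : ℝ) * (((univ : Finset (Fin 5 → Fin n)).filter fun t =>
          bad (xv χ M (K9.Star.Tw.lk H x) t) = true).card : ℝ) ≤
          110 * 6144 * (n : ℝ) ^ 5 - 960 * 6144 * ((K9.Star.Tw.lk H x).card : ℝ) * (n : ℝ) ^ 2 +
            188743680 * (n * ((k5x H x : ℕ) : ℝ)) + δ * (n : ℝ) ^ 5) :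
    ∀ θ : ℝ, 0 < θ → ∃ η : ℝ, 0 < η ∧ ∃ N : ℕ, ∀ n : ℕ, N ≤ n →
      ∀ (χ : Fin n → Bool) (M : Fin n → Fin n → Bool) (H : Finset (Finset (Fin n))),
        (∀ e ∈ H, e.card = 4) →
        (11 / 16 - η) * ((n.choose 4 : ℕ) : ℝ) ≤
          ((gir χ M (fun _ => false) (fun _ => false)).card : ℝ) →
        (dst H χ M : ℝ) ≤ η * (n : ℝ) ^ 4 →
        ∀ x : Fin n, (11 / 96 - η) * (n : ℝ) ^ 3 + 32 / n * (k5v H x : ℝ) ≤ (dg H x : ℝ) →
          ∃ (k : Bool) (m : Fin n → Bool),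
            (J x H (Function.update χ x k) (updM M x m) : ℝ) ≤ θ * (n : ℝ) ^ 3 := by
  intro θ hθ
  obtain ⟨η1, h1, N1, hv1⟩ := v1 θ hθ
  obtain ⟨η2, h2, N2, hv2⟩ := hV (η1 * 15360) (by positivity)
  obtain ⟨η3, h3, N3, hv3⟩ := q12 η1 h1
  set η : ℝ := min (min η1 (1 / 200)) (min (min (η2 / 2) η3) (η1 / 400)) with hη
  have p0 : 0 < η := by
    refine lt_min (lt_min h1 (by norm_num)) (lt_min (lt_min (by linarith) h3) (by linarith))
  have p1 : η ≤ η1 := (min_le_left _ _).trans (min_le_left _ _)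
  have p2 : η ≤ 1 / 200 := (min_le_left _ _).trans (min_le_right _ _)
  have p3 : η ≤ η2 / 2 := (min_le_right _ _).trans ((min_le_left _ _).trans (min_le_left _ _))
  have p4 : η ≤ η3 := (min_le_right _ _).trans ((min_le_left _ _).trans (min_le_right _ _))
  have p5 : η ≤ η1 / 400 := (min_le_right _ _).trans (min_le_right _ _)
  obtain ⟨N4, hN4⟩ := exists_nat_ge (12 / η)
  refine ⟨η, p0, max (max N1 N2) (max N3 (max N4 4)), fun n hn χ M H h4 hG hd x hx => ?_⟩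
  have n1 : N1 ≤ n := ((le_max_left _ _).trans (le_max_left _ _)).trans hn
  have n2 : N2 ≤ n := ((le_max_right _ _).trans (le_max_left _ _)).trans hn
  have n3 : N3 ≤ n := ((le_max_left _ _).trans (le_max_right _ _)).trans hn
  have n4 : N4 ≤ n :=
    ((le_max_left _ _).trans ((le_max_right _ _).trans (le_max_right _ _))).trans hn
  have n5 : 4 ≤ n :=
    ((le_max_right _ _).trans ((le_max_right _ _).trans (le_max_right _ _))).trans hn
  have hn0 : (0 : ℝ) < n := by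
    have : 0 < n := by omega
    exact_mod_cast this
  have hC0 : (0 : ℝ) ≤ ((n.choose 4 : ℕ) : ℝ) := Nat.cast_nonneg _
  -- the size of the structure
  have hG1 : ((11 / 16 : ℝ) - 1 / 100) * ((n.choose 4 : ℕ) : ℝ) ≤
      ((gir χ M (fun _ => false) (fun _ => false)).card : ℝ) :=
    le_trans (mul_le_mul_of_nonneg_right (by linarith) hC0) hG
  have hG3 : ((11 / 16 : ℝ) - η3) * ((n.choose 4 : ℕ) : ℝ) ≤
      ((gir χ M (fun _ => false) (fun _ => false)).card : ℝ) :=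
    le_trans (mul_le_mul_of_nonneg_right (by linarith) hC0) hG
  -- the choose number against the power
  have hch : (n : ℝ) ^ 4 / 24 - (n : ℝ) ^ 3 / 4 ≤ ((n.choose 4 : ℕ) : ℝ) := by
    have := Pool.Agent.Lib.MP_afdd4d_co.K9.Star.VS.Q12.choose4_ge n (by omega)
    linarith
  have he4 : 11 / 16 - η2 ≤ K9.Star.e4 (G0 χ M) := by
    unfold K9.Star.e4
    rw [le_div_iff₀ (by positivity)]
    have q1 : (11 / 16 - η) * ((n : ℝ) ^ 4 / 24 - (n : ℝ) ^ 3 / 4) ≤
        ((gir χ M (fun _ => false) (fun _ => false)).card : ℝ) :=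
      le_trans (mul_le_mul_of_nonneg_left hch (by linarith)) hG
    have q2 : 12 ≤ η * n := by
      have h5 : 12 / η ≤ n := hN4.trans (by exact_mod_cast n4)
      rw [div_le_iff₀ p0] at h5
      linarith
    have q3 : 6 * (n : ℝ) ^ 3 * (11 / 16) ≤ η * (n : ℝ) ^ 4 := by
      have := mul_le_mul_of_nonneg_right q2 (by positivity : (0 : ℝ) ≤ (n : ℝ) ^ 3)
      have e : η * n * (n : ℝ) ^ 3 = η * (n : ℝ) ^ 4 := by ring
      rw [e] at this
      have h6 : (0 : ℝ) ≤ (n : ℝ) ^ 3 := by positivity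
      linarith
    have q4 : 0 ≤ η * (n : ℝ) ^ 3 := by positivity
    have q5 : 0 ≤ (n : ℝ) ^ 4 := by positivity
    have q6 : η * (n : ℝ) ^ 4 ≤ η2 / 2 * (n : ℝ) ^ 4 := mul_le_mul_of_nonneg_right p3 q5
    have e : (11 / 16 - η) * ((n : ℝ) ^ 4 / 24 - (n : ℝ) ^ 3 / 4) * 24 =
        11 / 16 * (n : ℝ) ^ 4 - η * (n : ℝ) ^ 4 - 6 * (n : ℝ) ^ 3 * (11 / 16) +
          6 * (η * (n : ℝ) ^ 3) := by ring
    show (11 / 16 - η2) * (n : ℝ) ^ 4 ≤
      24 * ((gir χ M (fun _ => false) (fun _ => false)).card : ℝ)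
    linarith
  have hdd : ((symmDiff H (G0 χ M)).card : ℝ) ≤ η2 * (n : ℝ) ^ 4 := by
    refine le_trans hd (mul_le_mul_of_nonneg_right (by linarith) (by positivity))
  have hw := hv2 n n2 χ M H h4 he4 hdd x
  have hL : (K9.Star.Tw.lk H x).card = dg H x := link_card h4 x
  -- the number of bad windows
  have hbT : ((badT fun W => ¬ FG χ (g0B χ M) (lB H x) W).card : ℝ) ≤ η1 * (n : ℝ) ^ 5 := by
    have b1 : ((badT fun W => ¬ FG χ (g0B χ M) (lB H x) W).card : ℝ) ≤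
        (((univ : Finset (Fin 5 → Fin n)).filter fun t =>
          bad (xv χ M (K9.Star.Tw.lk H x) t) = true).card : ℝ) := by
      exact_mod_cast badT_le bad hbad χ M H x
    have b2 : (k5x H x : ℕ) = k5v H x := rfl
    rw [hL, b2] at hw
    have b3 := mul_le_mul_of_nonneg_right hx (by positivity : (0 : ℝ) ≤ 960 * 6144 * (n : ℝ) ^ 2)
    have b4 : ((11 / 96 - η) * (n : ℝ) ^ 3 + 32 / n * (k5v H x : ℝ)) * (960 * 6144 * (n : ℝ) ^ 2) =
        110 * 6144 * (n : ℝ) ^ 5 - 960 * 6144 * η * (n : ℝ) ^ 5 +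
          188743680 * (n * (k5v H x : ℝ)) := by
      field_simp
      ring
    rw [b4] at b3
    have b5 : 30720 * (((univ : Finset (Fin 5 → Fin n)).filter fun t =>
        bad (xv χ M (K9.Star.Tw.lk H x) t) = true).card : ℝ) ≤
        960 * 6144 * η * (n : ℝ) ^ 5 + η1 * 15360 * (n : ℝ) ^ 5 := by linarith
    have b6 : η * (n : ℝ) ^ 5 ≤ η1 / 400 * (n : ℝ) ^ 5 :=
      mul_le_mul_of_nonneg_right p5 (by positivity)
    have b7 : 0 ≤ η1 * (n : ℝ) ^ 5 := by positivity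
    linarith
  refine hv1 n n1 χ M H x h4 hG1 ?_ hbT ?_
  · exact (hv3 n n3 χ M hG3).1
  · have c1 : ((lnk H x).card : ℝ) = (dg H x : ℝ) := by exact_mod_cast hL
    rw [c1]
    have c2 : 0 ≤ 32 / (n : ℝ) * (k5v H x : ℝ) := by positivity
    have c3 : (11 / 96 - η1) * (n : ℝ) ^ 3 ≤ (11 / 96 - η) * (n : ℝ) ^ 3 :=
      mul_le_mul_of_nonneg_right (by linarith) (by positivity)
    linarith

end Pool.Agent.Lib.MP_afdd4d_co.VS
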