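import Pool.Agent.Lib.MP_afdd4d_co.VS.SevenC

/-!
MP_afdd4d_co, vertex part: the choice of a base.

If only few windows of five vertices are bad, then there is a tuple of four vertices in a given
family such that few triples make, together with it, a set of seven vertices with a bad window.
-/

set_option autoImplicit false

namespace Pool.Agent.Lib.MP_afdd4d_co.VS

open Finset

section avg
variable {n : ℕ}

open Classical in
/-- the injective tuples whose image is bad -/
noncomputable def badT (bad : Finset (Fin n) → Prop) : Finset (Fin 5 → Fin n) :=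
  univ.filter fun t => Function.Injective t ∧ bad (univ.image t)

open Classical in
/-- the injective tuples of seven vertices with a bad window -/
noncomputable def badS (bad : Finset (Fin n) → Prop) : Finset (Fin 7 → Fin n) :=
  univ.filter fun s => Function.Injective s ∧ ∃ J : Finset (Fin 7), J.card = 5 ∧ bad (J.image s)

open Classical in
theorem badS_one (bad : Finset (Fin n) → Prop) (J : Finset (Fin 7)) (hJ : J.card = 5) :
    ((univ : Finset (Fin 7 → Fin n)).filter fun s => Function.Injective s ∧
      bad (J.image s)).card ≤ (badT bad).card * n ^ 2 := by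
  have hK : (Jᶜ).card = 2 := by rw [card_compl, Fintype.card_fin, hJ]
  have e1 : (badT bad).card * n ^ 2 = (badT bad ×ˢ (univ : Finset (Fin 2 → Fin n))).card := by
    rw [card_product, card_univ, Fintype.card_fun, Fintype.card_fin, Fintype.card_fin]
  rw [e1]
  refine card_le_card_of_injOn (fun s => (s ∘ J.orderEmbOfFin hJ, s ∘ (Jᶜ).orderEmbOfFin hK))
    ?_ ?_
  · intro s hs
    rw [mem_coe, mem_filter] at hs
    rw [mem_coe, mem_product]
    refine ⟨?_, mem_univ _⟩
    unfold badT
    rw [mem_filter]
    refine ⟨mem_univ _, hs.2.1.comp (J.orderEmbOfFin hJ).injective, ?_⟩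
    have e2 : univ.image (s ∘ J.orderEmbOfFin hJ) = J.image s := by
      rw [← image_image, image_orderEmbOfFin_univ]
    rw [e2]
    exact hs.2.2
  · intro s _ s' _ h
    rw [Prod.mk.injEq] at h
    funext i
    by_cases hi : i ∈ J
    · have h2 : i ∈ univ.image (J.orderEmbOfFin hJ) := by rw [image_orderEmbOfFin_univ]; exact hi
      obtain ⟨a, _, ha⟩ := mem_image.mp h2
      rw [← ha]
      exact congrFun h.1 a
    · have h2 : i ∈ univ.image ((Jᶜ).orderEmbOfFin hK) := by
        rw [image_orderEmbOfFin_univ, mem_compl]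
        exact hi
      obtain ⟨a, _, ha⟩ := mem_image.mp h2
      rw [← ha]
      exact congrFun h.2 a

theorem card_badS (bad : Finset (Fin n) → Prop) :
    (badS bad).card ≤ 21 * ((badT bad).card * n ^ 2) := by
  classical
  have h1 : badS bad ⊆ ((univ : Finset (Fin 7)).powersetCard 5).biUnion fun J =>
      (univ : Finset (Fin 7 → Fin n)).filter fun s => Function.Injective s ∧ bad (J.image s) := by
    intro s hs
    unfold badS at hs
    rw [mem_filter] at hs
    obtain ⟨_, hi, J, hJ, hb⟩ := hs
    rw [mem_biUnion]
    exact ⟨J, mem_powersetCard.mpr ⟨subset_univ _, hJ⟩, mem_filter.mpr ⟨mem_univ _, hi, hb⟩⟩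
  refine (card_le_card h1).trans (card_biUnion_le.trans ?_)
  have h2 : ∀ J ∈ (univ : Finset (Fin 7)).powersetCard 5,
      ((univ : Finset (Fin 7 → Fin n)).filter fun s => Function.Injective s ∧
        bad (J.image s)).card ≤ (badT bad).card * n ^ 2 := by
    intro J hJ
    exact badS_one bad J (mem_powersetCard.mp hJ).2
  refine (sum_le_card_nsmul _ _ _ h2).trans (le_of_eq ?_)
  rw [card_powersetCard, card_univ, Fintype.card_fin, smul_eq_mul]
  rfl

open Classical in
/-- the triples that make a set with a bad window together with a tuple -/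
noncomputable def badP (bad : Finset (Fin n) → Prop) (q : Fin 4 → Fin n) :
    Finset (Fin 3 → Fin n) :=
  univ.filter fun p => Fin.append q p ∈ badS bad

theorem mem_badS_of (bad : Finset (Fin n) → Prop) (s : Fin 7 → Fin n) (hs : Function.Injective s)
    (J : Finset (Fin 7)) (hJ : J.card = 5) (h : bad (J.image s)) : s ∈ badS bad := by
  classical
  unfold badS
  rw [mem_filter]
  exact ⟨mem_univ _, hs, J, hJ, h⟩

theorem mem_badP_of (bad : Finset (Fin n) → Prop) (q : Fin 4 → Fin n) (p : Fin 3 → Fin n)
    (h : Fin.append q p ∈ badS bad) : p ∈ badP bad q := by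
  classical
  unfold badP
  rw [mem_filter]
  exact ⟨mem_univ _, h⟩

theorem sum_badP (bad : Finset (Fin n) → Prop) (Bs : Finset (Fin 4 → Fin n)) :
    ∑ q ∈ Bs, (badP bad q).card ≤ 21 * ((badT bad).card * n ^ 2) := by
  classical
  refine le_trans ?_ (card_badS bad)
  rw [← card_sigma]
  refine card_le_card_of_injOn (fun x => Fin.append x.1 x.2) ?_ ?_
  · rintro ⟨q, p⟩ h
    rw [mem_coe, mem_sigma] at h
    have h2 := h.2
    unfold badP at h2
    rw [mem_filter] at h2
    exact h2.2
  · rintro ⟨q, p⟩ _ ⟨q', p'⟩ _ h
    have h' : Fin.append q p = Fin.append q' p' := h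
    have e1 : q = q' := by
      funext i
      have := congrFun h' (Fin.castAdd 3 i)
      rwa [Fin.append_left, Fin.append_left] at this
    have e2 : p = p' := by
      funext i
      have := congrFun h' (Fin.natAdd 4 i)
      rwa [Fin.append_right, Fin.append_right] at this
    rw [e1, e2]

/-- The choice of a base. -/
theorem exists_base (bad : Finset (Fin n) → Prop) (Bs : Finset (Fin 4 → Fin n))
    (hB : Bs.Nonempty) :
    ∃ q ∈ Bs, (badP bad q).card * Bs.card ≤ 21 * ((badT bad).card * n ^ 2) := by
  obtain ⟨q, hq, hm⟩ := exists_min_image Bs (fun q => (badP bad q).card) hB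
  refine ⟨q, hq, le_trans ?_ (sum_badP bad Bs)⟩
  have := card_nsmul_le_sum Bs (fun q => (badP bad q).card) _ hm
  rw [smul_eq_mul, mul_comm] at this
  exact this

open Classical in
/-- the triples which meet a tuple -/
noncomputable def meetP (q : Fin 4 → Fin n) : Finset (Fin 3 → Fin n) :=
  univ.filter fun p => ∃ i j, q i = p j

theorem card_meetP (q : Fin 4 → Fin n) : (meetP q).card ≤ 12 * n ^ 2 := by
  classical
  have h1 : meetP q ⊆ (univ : Finset (Fin 4 × Fin 3)).biUnion fun ij =>
      (univ : Finset (Fin 3 → Fin n)).filter fun p => p ij.2 = q ij.1 := by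
    intro p hp
    unfold meetP at hp
    rw [mem_filter] at hp
    obtain ⟨_, i, j, h⟩ := hp
    rw [mem_biUnion]
    exact ⟨(i, j), mem_univ _, mem_filter.mpr ⟨mem_univ _, h.symm⟩⟩
  refine (card_le_card h1).trans (card_biUnion_le.trans ?_)
  have h2 : ∀ ij ∈ (univ : Finset (Fin 4 × Fin 3)),
      ((univ : Finset (Fin 3 → Fin n)).filter fun p => p ij.2 = q ij.1).card ≤ n ^ 2 := by
    rintro ⟨i, j⟩ _
    have e1 : n ^ 2 = (univ : Finset ({k : Fin 3 // k ≠ j} → Fin n)).card := by
      rw [card_univ, Fintype.card_fun, Fintype.card_fin, Fintype.card_subtype_compl,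
        Fintype.card_fin, Fintype.card_unique]
    rw [e1]
    refine card_le_card_of_injOn (fun p k => p k.1) (fun _ _ => mem_coe.mpr (mem_univ _)) ?_
    intro p hp p' hp' h
    rw [mem_coe, mem_filter] at hp hp'
    funext k
    by_cases hk : k = j
    · rw [hk]
      exact hp.2.trans hp'.2.symm
    · exact congrFun h ⟨k, hk⟩
  refine (sum_le_card_nsmul _ _ _ h2).trans (le_of_eq ?_)
  rw [card_univ, Fintype.card_prod, Fintype.card_fin, Fintype.card_fin, smul_eq_mul]

end avg

end Pool.Agent.Lib.MP_afdd4d_co.VS
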