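import Pool.Agent.Lib.MP_afdd4d_co.VS.Deg

/-!
MP_afdd4d_co, vertex part: the degree and the errors of a vertex whose link has the structure.
-/

set_option autoImplicit false

namespace Pool.Agent.Lib.MP_afdd4d_co.VS

open Finset

section cnt
variable {n : ℕ}

/-- the flipped triples with two vertices of the own colour -/
theorem two_own' (κ : Bool) (c : Fin n → Bool) (g : Fin n → Fin n → Bool) :
    ct (fun p : Fin 3 → Fin n => Function.Injective p ∧ pat2 κ c p ∧ g (p 0) (p 1) = true) ≤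
      (flips κ c g).card * (cl (!κ) c).card := by
  classical
  rw [← card_product]
  refine card_le_card_of_injOn (fun p => ((p 0, p 1), p 2)) ?_ ?_
  · intro p hp
    obtain ⟨hi, hp1, hp2⟩ := mem_ts.mp (mem_coe.mp hp)
    rw [mem_coe, mem_product]
    refine ⟨?_, mem_cl.mpr hp1.2.2⟩
    unfold flips
    rw [mem_filter, mem_product]
    exact ⟨⟨mem_cl.mpr hp1.1, mem_cl.mpr hp1.2.1⟩, fun h => absurd (hi h) (by decide), hp2⟩
  · intro p _ p' _ hpp
    simp only [Prod.mk.injEq] at hpp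
    funext i
    fin_cases i
    · exact hpp.1.1
    · exact hpp.1.2
    · exact hpp.2

/-- the triples of the other colour -/
theorem zero_own (κ : Bool) (c : Fin n → Bool) (R : (Fin 3 → Fin n) → Prop) :
    ct (fun p : Fin 3 → Fin n => R p ∧ pat0 κ c p) ≤ (cl (!κ) c).card ^ 3 := by
  classical
  have h : (cl (!κ) c).card ^ 3 = (cl (!κ) c ×ˢ (cl (!κ) c ×ˢ cl (!κ) c)).card := by
    rw [card_product, card_product]
    ring
  rw [h]
  refine ct_prod _ _ fun p hp => ?_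
  rw [mem_product, mem_product]
  exact ⟨mem_cl.mpr hp.2.1, mem_cl.mpr hp.2.2.1, mem_cl.mpr hp.2.2.2⟩

variable {κ : Bool} {c : Fin n → Bool} {l : Finset (Fin n) → Bool} {z : Fin n → Fin n → Bool}
  {m : Fin n → Bool} {g : Fin n → Fin n → Bool}

theorem nSt_card : ct (fun p => Function.Injective p ∧ ¬ St κ c l z m g p) =
    (nSt κ c l z m g).card := by
  classical
  unfold ct
  congr 1
  ext p
  rw [mem_ts]
  unfold nSt
  rw [mem_filter]
  exact ⟨fun h => ⟨mem_univ _, h⟩, fun h => h.2⟩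

theorem inj_perm {p : Fin 3 → Fin n} (σ : Equiv.Perm (Fin 3)) (h : Function.Injective p) :
    Function.Injective (p ∘ σ) := h.comp σ.injective

theorem img3 (p : Fin 3 → Fin n) : univ.image p = {p 0, p 1, p 2} := by
  ext v
  simp only [mem_image, mem_univ, true_and, mem_insert, mem_singleton]
  constructor
  · rintro ⟨i, rfl⟩
    fin_cases i <;> simp
  · rintro (h | h | h)
    · exact ⟨0, h.symm⟩
    · exact ⟨1, h.symm⟩
    · exact ⟨2, h.symm⟩

theorem set_perm (p : Fin 3 → Fin n) (σ : Equiv.Perm (Fin 3)) :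
    ({(p ∘ σ) 0, (p ∘ σ) 1, (p ∘ σ) 2} : Finset (Fin n)) = {p 0, p 1, p 2} := by
  rw [← img3, ← img3, ← image_image, image_univ_of_surjective σ.surjective]

/-- three vertices of the own colour -/
theorem three_own' (hg : ∀ a a', g a a' = g a' a) :
    ct (fun p : Fin 3 → Fin n => Function.Injective p ∧ pat3 κ c p ∧
      (g (p 0) (p 1) ^^ g (p 0) (p 2) ^^ g (p 1) (p 2)) = true) ≤
        3 * (flips κ c g).card * (cl κ c).card := by
  have h1 := three_own κ c g hg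
  rcases Nat.eq_zero_or_pos (cl κ c).card with h0 | h0
  · have h2 : ct (fun p : Fin 3 → Fin n => Function.Injective p ∧ pat3 κ c p ∧
        (g (p 0) (p 1) ^^ g (p 0) (p 2) ^^ g (p 1) (p 2)) = true) = 0 := by
      unfold ct
      rw [card_eq_zero, eq_empty_iff_forall_notMem]
      intro p hp
      have hp' := mem_ts.mp hp
      have : p 0 ∈ cl κ c := mem_cl.mpr hp'.2.1.1
      rw [card_eq_zero.mp h0] at this
      exact absurd this (notMem_empty _)
    rw [h2]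
    exact Nat.zero_le _
  · have ha : (0 : ℝ) < (cl κ c).card := by exact_mod_cast h0
    have h2 : (cl κ c).card * (ct (fun p : Fin 3 → Fin n => Function.Injective p ∧ pat3 κ c p ∧
        (g (p 0) (p 1) ^^ g (p 0) (p 2) ^^ g (p 1) (p 2)) = true) : ℝ) ≤
        (cl κ c).card * (3 * (flips κ c g).card * (cl κ c).card) := by
      nlinarith [sq_nonneg ((flips κ c g).card : ℝ), h1]
    have h3 := le_of_mul_le_mul_left h2 ha
    exact_mod_cast h3

/-- The degree. -/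
theorem deg_bound (hg : ∀ a a', g a a' = g a' a) (a b F N0 : ℕ) (ha : (cl κ c).card = a)
    (hb : (cl (!κ) c).card = b) (hF : (flips κ c g).card = F) (hN : (nSt κ c l z m g).card = N0)
    (ha0 : 0 < a) :
    (ct (fun p : Fin 3 → Fin n => Function.Injective p ∧ l {p 0, p 1, p 2} = true) : ℝ) ≤
      (b : ℝ) ^ 3 + 3 * (a * (b : ℝ) ^ 2 / 2) + 3 * ((a : ℝ) ^ 2 * b - F * b) +
        (3 * F * a - 2 * (F : ℝ) ^ 2 / a) + 7 * N0 := by
  have k := ct_pat κ c (fun p : Fin 3 → Fin n => Function.Injective p ∧ l {p 0, p 1, p 2} = true)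
    (fun σ p hp => ⟨inj_perm σ hp.1, by rw [set_perm]; exact hp.2⟩)
  beta_reduce at k
  have k0 := zero_own κ c (fun p : Fin 3 → Fin n => Function.Injective p ∧
    l {p 0, p 1, p 2} = true)
  beta_reduce at k0
  -- one vertex of the own colour
  have k1 : ct (fun p : Fin 3 → Fin n => (Function.Injective p ∧ l {p 0, p 1, p 2} = true) ∧
      pat1 κ c p) ≤ (nSt κ c l z m g).card + ct (fun p : Fin 3 → Fin n => pat1 κ c p ∧
        (m (p 1) ^^ m (p 2) ^^ z (p 0) (p 1) ^^ z (p 0) (p 2)) = true) := by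
    rw [← nSt_card]
    refine le_trans (ct_mono fun p hp => ?_) (ct_or _ _)
    by_cases h : St κ c l z m g p
    · right
      refine ⟨hp.2, ?_⟩
      rw [← h.1 hp.2.1 hp.2.2.1 hp.2.2.2]
      exact hp.1.2
    · left
      exact ⟨hp.1.1, h⟩
  have k1' := one_own κ c z m
  -- two vertices of the own colour
  have k2 : ct (fun p : Fin 3 → Fin n => (Function.Injective p ∧ l {p 0, p 1, p 2} = true) ∧
      pat2 κ c p) ≤ (nSt κ c l z m g).card + ct (fun p : Fin 3 → Fin n =>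
        Function.Injective p ∧ pat2 κ c p ∧ g (p 0) (p 1) = false) := by
    rw [← nSt_card]
    refine le_trans (ct_mono fun p hp => ?_) (ct_or _ _)
    by_cases h : St κ c l z m g p
    · right
      refine ⟨hp.1.1, hp.2, ?_⟩
      have h1 := h.2.1 hp.2.1 hp.2.2.1 hp.2.2.2
      rw [hp.1.2] at h1
      cases hgg : g (p 0) (p 1)
      · rfl
      · rw [hgg] at h1
        exact absurd h1 (by simp)
    · left
      exact ⟨hp.1.1, h⟩
  have k2' := two_own κ c g
  -- three vertices of the own colour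
  have k3 : ct (fun p : Fin 3 → Fin n => (Function.Injective p ∧ l {p 0, p 1, p 2} = true) ∧
      pat3 κ c p) ≤ (nSt κ c l z m g).card + ct (fun p : Fin 3 → Fin n =>
        Function.Injective p ∧ pat3 κ c p ∧
          (g (p 0) (p 1) ^^ g (p 0) (p 2) ^^ g (p 1) (p 2)) = true) := by
    rw [← nSt_card]
    refine le_trans (ct_mono fun p hp => ?_) (ct_or _ _)
    by_cases h : St κ c l z m g p
    · right
      refine ⟨hp.1.1, hp.2, ?_⟩
      rw [← h.2.2.1 hp.2.1 hp.2.2.1 hp.2.2.2]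
      exact hp.1.2
    · left
      exact ⟨hp.1.1, h⟩
  have k3' := three_own κ c g hg
  rw [ha, hb] at k1'
  rw [hb] at k0
  rw [ha, hb, hF] at k2'
  rw [ha, hF] at k3'
  rw [hN] at k1 k2 k3
  generalize ct (fun p : Fin 3 → Fin n => Function.Injective p ∧ l {p 0, p 1, p 2} = true) = D
    at k ⊢
  generalize ct (fun p : Fin 3 → Fin n => (Function.Injective p ∧ l {p 0, p 1, p 2} = true) ∧
    pat0 κ c p) = D0 at k k0
  generalize ct (fun p : Fin 3 → Fin n => (Function.Injective p ∧ l {p 0, p 1, p 2} = true) ∧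
    pat1 κ c p) = D1 at k k1
  generalize ct (fun p : Fin 3 → Fin n => (Function.Injective p ∧ l {p 0, p 1, p 2} = true) ∧
    pat2 κ c p) = D2 at k k2
  generalize ct (fun p : Fin 3 → Fin n => (Function.Injective p ∧ l {p 0, p 1, p 2} = true) ∧
    pat3 κ c p) = D3 at k k3
  generalize ct (fun p : Fin 3 → Fin n => pat1 κ c p ∧
    (m (p 1) ^^ m (p 2) ^^ z (p 0) (p 1) ^^ z (p 0) (p 2)) = true) = E1 at k1 k1'
  generalize ct (fun p : Fin 3 → Fin n => Function.Injective p ∧ pat2 κ c p ∧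
    g (p 0) (p 1) = false) = E2 at k2 k2'
  generalize ct (fun p : Fin 3 → Fin n => Function.Injective p ∧ pat3 κ c p ∧
    (g (p 0) (p 1) ^^ g (p 0) (p 2) ^^ g (p 1) (p 2)) = true) = E3 at k3 k3'
  have ha0' : (0 : ℝ) < a := by exact_mod_cast ha0
  have r : (D : ℝ) ≤ D0 + 3 * D1 + 3 * D2 + D3 := by exact_mod_cast k
  have r0 : (D0 : ℝ) ≤ (b : ℝ) ^ 3 := by exact_mod_cast k0
  have r1 : (D1 : ℝ) ≤ N0 + E1 := by exact_mod_cast k1
  have r1' : 2 * (E1 : ℝ) ≤ a * (b : ℝ) ^ 2 := by exact_mod_cast k1'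
  have r2 : (D2 : ℝ) ≤ N0 + E2 := by exact_mod_cast k2
  have r2' : (E2 : ℝ) + F * b ≤ (a : ℝ) ^ 2 * b := by exact_mod_cast k2'
  have r3 : (D3 : ℝ) ≤ N0 + E3 := by exact_mod_cast k3
  have r3' : (E3 : ℝ) ≤ 3 * F * a - 2 * (F : ℝ) ^ 2 / a := by
    rw [le_sub_iff_add_le, ← sub_nonneg]
    have h1 : 3 * (F : ℝ) * a - (E3 + 2 * (F : ℝ) ^ 2 / a) =
        (3 * F * (a : ℝ) ^ 2 - (a * E3 + 2 * (F : ℝ) ^ 2)) / a := by
      field_simp
    rw [h1]
    exact div_nonneg (by linarith) ha0'.le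
  linarith

/-- The errors. -/
theorem err_bound (hg : ∀ a a', g a a' = g a' a) (F N0 : ℕ)
    (hF : (flips κ c g).card = F) (hN : (nSt κ c l z m g).card = N0)
    (R : (Fin 3 → Fin n) → Prop) (gl : Finset (Fin n) → Bool)
    (hR : ∀ (σ : Equiv.Perm (Fin 3)) p, R p → R (p ∘ σ))
    (hRi : ∀ p, R p → Function.Injective p ∧ l {p 0, p 1, p 2} ≠ gl {p 0, p 1, p 2})
    (g0 : ∀ p, R p → pat0 κ c p → gl {p 0, p 1, p 2} = true)
    (g1 : ∀ p, R p → pat1 κ c p →
      gl {p 0, p 1, p 2} = (m (p 1) ^^ m (p 2) ^^ z (p 0) (p 1) ^^ z (p 0) (p 2)))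
    (g2 : ∀ p, R p → pat2 κ c p → gl {p 0, p 1, p 2} = true)
    (g3 : ∀ p, R p → pat3 κ c p → gl {p 0, p 1, p 2} = false) :
    ct R ≤ 8 * N0 + 3 * F * n := by
  have k := ct_pat κ c R hR
  have k0 : ct (fun p : Fin 3 → Fin n => R p ∧ pat0 κ c p) ≤ (nSt κ c l z m g).card := by
    rw [← nSt_card]
    refine ct_mono fun p hp => ⟨(hRi p hp.1).1, fun h => (hRi p hp.1).2 ?_⟩
    rw [g0 p hp.1 hp.2]
    exact h.2.2.2 hp.2.1 hp.2.2.1 hp.2.2.2
  have k1 : ct (fun p : Fin 3 → Fin n => R p ∧ pat1 κ c p) ≤ (nSt κ c l z m g).card := by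
    rw [← nSt_card]
    refine ct_mono fun p hp => ⟨(hRi p hp.1).1, fun h => (hRi p hp.1).2 ?_⟩
    rw [g1 p hp.1 hp.2]
    exact h.1 hp.2.1 hp.2.2.1 hp.2.2.2
  have k2 : ct (fun p : Fin 3 → Fin n => R p ∧ pat2 κ c p) ≤ (nSt κ c l z m g).card +
      ct (fun p : Fin 3 → Fin n => Function.Injective p ∧ pat2 κ c p ∧
        g (p 0) (p 1) = true) := by
    rw [← nSt_card]
    refine le_trans (ct_mono fun p hp => ?_) (ct_or _ _)
    by_cases h : St κ c l z m g p
    · right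
      refine ⟨(hRi p hp.1).1, hp.2, ?_⟩
      have h1 := h.2.1 hp.2.1 hp.2.2.1 hp.2.2.2
      have h2 := (hRi p hp.1).2
      rw [g2 p hp.1 hp.2, h1] at h2
      cases hgg : g (p 0) (p 1)
      · rw [hgg] at h2
        exact absurd rfl h2
      · rfl
    · left
      exact ⟨(hRi p hp.1).1, h⟩
  have k3 : ct (fun p : Fin 3 → Fin n => R p ∧ pat3 κ c p) ≤ (nSt κ c l z m g).card +
      ct (fun p : Fin 3 → Fin n => Function.Injective p ∧ pat3 κ c p ∧
          (g (p 0) (p 1) ^^ g (p 0) (p 2) ^^ g (p 1) (p 2)) = true) := by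
    rw [← nSt_card]
    refine le_trans (ct_mono fun p hp => ?_) (ct_or _ _)
    by_cases h : St κ c l z m g p
    · right
      refine ⟨(hRi p hp.1).1, hp.2, ?_⟩
      have h1 := h.2.2.1 hp.2.1 hp.2.2.1 hp.2.2.2
      have h2 := (hRi p hp.1).2
      rw [g3 p hp.1 hp.2, h1] at h2
      exact Bool.eq_true_of_not_eq_false h2
    · left
      exact ⟨(hRi p hp.1).1, h⟩
  have k2' := two_own' κ c g
  have k3' := three_own' (κ := κ) (c := c) (g := g) hg
  have hab := cl_add κ c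
  rw [hF] at k2' k3'
  rw [hN] at k0 k1 k2 k3
  have h1 : ct R ≤ 8 * N0 + 3 * (F * (cl (!κ) c).card) + 3 * F * (cl κ c).card := by omega
  refine h1.trans (le_of_eq ?_)
  calc 8 * N0 + 3 * (F * (cl (!κ) c).card) + 3 * F * (cl κ c).card
      = 8 * N0 + 3 * F * ((cl κ c).card + (cl (!κ) c).card) := by ring
    _ = 8 * N0 + 3 * F * n := by rw [hab]

end cnt

/-! ### The size of the flips -/

/-- The square root law. -/
theorem flips_small {a b F N0 n D η ν : ℝ} (hn : 0 < n) (hab : a + b = n) (ha : 0 < a)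
    (hF0 : 0 ≤ F) (hFa : F ≤ a ^ 2) (hν : 0 ≤ ν) (hη : 0 ≤ η) (hη2 : η ≤ 1 / 2) (hs : |a - n / 2| ≤ η * n)
    (hN : N0 ≤ ν * n ^ 3) (hD : (11 / 16 - 6 * η) * n ^ 3 ≤ D)
    (h : D ≤ b ^ 3 + 3 * (a * b ^ 2 / 2) + 3 * (a ^ 2 * b - F * b) +
      (3 * F * a - 2 * F ^ 2 / a) + 7 * N0) :
    F ^ 2 ≤ (7 * η + 4 * ν) * n ^ 4 := by
  obtain ⟨σ, hσ⟩ : ∃ σ, σ = a - n / 2 := ⟨_, rfl⟩
  have ha' : a = n / 2 + σ := by linarith
  have hb' : b = n / 2 - σ := by linarith
  have hs1 : σ ≤ η * n := (le_abs_self _).trans (hσ ▸ hs)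
  have hs2 : -(η * n) ≤ σ := by
    have := neg_abs_le (a - n / 2)
    rw [← hσ] at this hs
    linarith
  have han : a ≤ n := by
    have : η * n ≤ 1 / 2 * n := mul_le_mul_of_nonneg_right hη2 hn.le
    linarith
  have hbn : 0 ≤ b := by linarith
  -- the quadratic term
  have h1 : 2 * F ^ 2 / n ≤ 2 * F ^ 2 / a :=
    div_le_div_of_nonneg_left (by positivity) ha han
  -- the polynomial
  have h2 : b ^ 3 + 3 * (a * b ^ 2 / 2) + 3 * (a ^ 2 * b) =
      11 / 16 * n ^ 3 - 3 / 8 * n ^ 2 * σ - 3 / 4 * n * σ ^ 2 - 5 / 2 * σ ^ 3 := by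
    rw [ha', hb']
    ring
  have h3 : -(3 / 8 * n ^ 2 * σ) - 3 / 4 * n * σ ^ 2 - 5 / 2 * σ ^ 3 ≤ η * n ^ 3 := by
    have e1 : -(3 / 8 * n ^ 2 * σ) ≤ 3 / 8 * η * n ^ 3 := by
      nlinarith [mul_nonneg (sq_nonneg n) (by linarith : (0 : ℝ) ≤ σ + η * n)]
    have e2 : 0 ≤ 3 / 4 * n * σ ^ 2 := by positivity
    have e3 : -(5 / 2 * σ ^ 3) ≤ 5 / 8 * η * n ^ 3 := by
      have q1 : σ ^ 2 ≤ (η * n) ^ 2 := by
        apply sq_le_sq'
        · linarith
        · exact hs1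
      have q2 : -(σ ^ 3) ≤ σ ^ 2 * (η * n) := by
        have : -(σ ^ 3) = σ ^ 2 * (-σ) := by ring
        rw [this]
        exact mul_le_mul_of_nonneg_left (by linarith) (sq_nonneg _)
      have q3 : σ ^ 2 * (η * n) ≤ (η * n) ^ 2 * (η * n) :=
        mul_le_mul_of_nonneg_right q1 (by positivity)
      have q4 : (η * n) ^ 2 * (η * n) = η ^ 2 * (η * n ^ 3) := by ring
      have q5 : η ^ 2 ≤ 1 / 4 := by nlinarith
      have q6 : η ^ 2 * (η * n ^ 3) ≤ 1 / 4 * (η * n ^ 3) :=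
        mul_le_mul_of_nonneg_right q5 (by positivity)
      linarith
    linarith
  have h4 : -(3 * (F * b)) + 3 * F * a ≤ 6 * η * n ^ 3 := by
    have e1 : -(3 * (F * b)) + 3 * F * a = 6 * (F * σ) := by
      rw [ha', hb']
      ring
    have e2 : F * σ ≤ F * (η * n) := mul_le_mul_of_nonneg_left hs1 hF0
    have e3 : F ≤ n ^ 2 := hFa.trans (by nlinarith)
    have e4 : F * (η * n) ≤ n ^ 2 * (η * n) := mul_le_mul_of_nonneg_right e3 (by positivity)
    rw [e1]
    nlinarith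
  have h5 : 2 * F ^ 2 / n ≤ (13 * η + 7 * ν) * n ^ 3 := by
    nlinarith
  rw [div_le_iff₀ hn] at h5
  have h6 : 0 ≤ η * n ^ 4 := by positivity
  have h7 : 0 ≤ ν * n ^ 4 := by positivity
  have h8 : (13 * η + 7 * ν) * n ^ 3 * n = 13 * (η * n ^ 4) + 7 * (ν * n ^ 4) := by ring
  rw [h8] at h5
  linarith

end Pool.Agent.Lib.MP_afdd4d_co.VS
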