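import Pool.Agent.Lib.MP_afdd4d_co.VS.Struct

/-!
MP_afdd4d_co, vertex part: the degree of a vertex whose link has the structure.
-/

set_option autoImplicit false

namespace Pool.Agent.Lib.MP_afdd4d_co.VS

open Finset

section pat
variable {n : ℕ}

/-- all three vertices have the other colour -/
def pat0 (κ : Bool) (c : Fin n → Bool) (p : Fin 3 → Fin n) : Prop :=
  c (p 0) = !κ ∧ c (p 1) = !κ ∧ c (p 2) = !κ

/-- one vertex of the own colour -/
def pat1 (κ : Bool) (c : Fin n → Bool) (p : Fin 3 → Fin n) : Prop :=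
  c (p 0) = κ ∧ c (p 1) = !κ ∧ c (p 2) = !κ

/-- two vertices of the own colour -/
def pat2 (κ : Bool) (c : Fin n → Bool) (p : Fin 3 → Fin n) : Prop :=
  c (p 0) = κ ∧ c (p 1) = κ ∧ c (p 2) = !κ

/-- three vertices of the own colour -/
def pat3 (κ : Bool) (c : Fin n → Bool) (p : Fin 3 → Fin n) : Prop :=
  c (p 0) = κ ∧ c (p 1) = κ ∧ c (p 2) = κ

open Classical in
/-- the tuples with a property -/
noncomputable def ts (R : (Fin 3 → Fin n) → Prop) : Finset (Fin 3 → Fin n) :=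
  (univ : Finset (Fin 3 → Fin n)).filter R

theorem mem_ts {R : (Fin 3 → Fin n) → Prop} {p : Fin 3 → Fin n} : p ∈ ts R ↔ R p := by
  classical
  unfold ts
  rw [mem_filter]
  exact ⟨fun h => h.2, fun h => ⟨mem_univ _, h⟩⟩

/-- the number of tuples with a property -/
noncomputable def ct (R : (Fin 3 → Fin n) → Prop) : ℕ := (ts R).card

theorem ct_mono {R R' : (Fin 3 → Fin n) → Prop} (h : ∀ p, R p → R' p) : ct R ≤ ct R' :=
  card_le_card fun p hp => mem_ts.mpr (h p (mem_ts.mp hp))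

theorem ct_or (R R' : (Fin 3 → Fin n) → Prop) : ct (fun p => R p ∨ R' p) ≤ ct R + ct R' := by
  classical
  refine le_trans (card_le_card fun p hp => ?_) (card_union_le (ts R) (ts R'))
  rw [mem_union, mem_ts, mem_ts]
  exact mem_ts.mp hp

theorem ct_perm (σ : Equiv.Perm (Fin 3)) (R : (Fin 3 → Fin n) → Prop) :
    ct (fun p => R (p ∘ σ)) ≤ ct R := by
  refine card_le_card_of_injOn (fun p => p ∘ σ) ?_ ?_
  · intro p hp
    have h1 : R (p ∘ σ) := (mem_ts (R := fun p => R (p ∘ σ))).mp (mem_coe.mp hp)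
    show p ∘ σ ∈ ((ts R : Finset (Fin 3 → Fin n)) : Set (Fin 3 → Fin n))
    exact mem_coe.mpr (mem_ts.mpr h1)
  · intro p _ p' _ h
    funext i
    have := congrFun h (σ.symm i)
    simpa using this

theorem ct_pat_aux (R R0 R1 R2 R3 : (Fin 3 → Fin n) → Prop)
    (h : ∀ p, R p → R0 p ∨ R3 p ∨ R1 p ∨ R2 p ∨ R1 (p ∘ Equiv.swap 0 1) ∨
      R1 (p ∘ Equiv.swap 0 2) ∨ R2 (p ∘ Equiv.swap 1 2) ∨ R2 (p ∘ Equiv.swap 0 2)) :
    ct R ≤ ct R0 + 3 * ct R1 + 3 * ct R2 + ct R3 := by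
  have k0 := ct_mono h
  have k1 := ct_perm (Equiv.swap (0 : Fin 3) 1) R1
  have k2 := ct_perm (Equiv.swap (0 : Fin 3) 2) R1
  have k3 := ct_perm (Equiv.swap (1 : Fin 3) 2) R2
  have k4 := ct_perm (Equiv.swap (0 : Fin 3) 2) R2
  have m1 := ct_or R0 fun p => R3 p ∨ R1 p ∨ R2 p ∨ R1 (p ∘ Equiv.swap 0 1) ∨
      R1 (p ∘ Equiv.swap 0 2) ∨ R2 (p ∘ Equiv.swap 1 2) ∨ R2 (p ∘ Equiv.swap 0 2)
  have m2 := ct_or R3 fun p => R1 p ∨ R2 p ∨ R1 (p ∘ Equiv.swap 0 1) ∨
      R1 (p ∘ Equiv.swap 0 2) ∨ R2 (p ∘ Equiv.swap 1 2) ∨ R2 (p ∘ Equiv.swap 0 2)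
  have m3 := ct_or R1 fun p => R2 p ∨ R1 (p ∘ Equiv.swap 0 1) ∨
      R1 (p ∘ Equiv.swap 0 2) ∨ R2 (p ∘ Equiv.swap 1 2) ∨ R2 (p ∘ Equiv.swap 0 2)
  have m4 := ct_or R2 fun p => R1 (p ∘ Equiv.swap 0 1) ∨
      R1 (p ∘ Equiv.swap 0 2) ∨ R2 (p ∘ Equiv.swap 1 2) ∨ R2 (p ∘ Equiv.swap 0 2)
  have m5 := ct_or (fun p => R1 (p ∘ Equiv.swap 0 1)) fun p =>
      R1 (p ∘ Equiv.swap 0 2) ∨ R2 (p ∘ Equiv.swap 1 2) ∨ R2 (p ∘ Equiv.swap 0 2)
  have m6 := ct_or (fun p => R1 (p ∘ Equiv.swap 0 2)) fun p =>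
      R2 (p ∘ Equiv.swap 1 2) ∨ R2 (p ∘ Equiv.swap 0 2)
  have m7 := ct_or (fun p => R2 (p ∘ Equiv.swap 1 2)) fun p => R2 (p ∘ Equiv.swap 0 2)
  omega

theorem ct_pat (κ : Bool) (c : Fin n → Bool) (R : (Fin 3 → Fin n) → Prop)
    (hR : ∀ (σ : Equiv.Perm (Fin 3)) p, R p → R (p ∘ σ)) :
    ct R ≤ ct (fun p => R p ∧ pat0 κ c p) + 3 * ct (fun p => R p ∧ pat1 κ c p) +
      3 * ct (fun p => R p ∧ pat2 κ c p) + ct (fun p => R p ∧ pat3 κ c p) := by
  refine ct_pat_aux R _ _ _ _ fun p hp => ?_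
  have r1 := hR (Equiv.swap 0 1) p hp
  have r2 := hR (Equiv.swap 0 2) p hp
  have r3 := hR (Equiv.swap 1 2) p hp
  have key : ∀ x : Bool, x = κ ∨ x = !κ := by
    intro x
    cases x <;> cases κ <;> simp
  rcases key (c (p 0)) with h0 | h0 <;> rcases key (c (p 1)) with h1 | h1 <;>
    rcases key (c (p 2)) with h2 | h2
  · exact Or.inr (Or.inl ⟨hp, h0, h1, h2⟩)
  · exact Or.inr (Or.inr (Or.inr (Or.inl ⟨hp, h0, h1, h2⟩)))
  · exact Or.inr (Or.inr (Or.inr (Or.inr (Or.inr (Or.inr (Or.inl ⟨r3, h0, h2, h1⟩))))))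
  · exact Or.inr (Or.inr (Or.inl ⟨hp, h0, h1, h2⟩))
  · exact Or.inr (Or.inr (Or.inr (Or.inr (Or.inr (Or.inr (Or.inr ⟨r2, h2, h1, h0⟩))))))
  · exact Or.inr (Or.inr (Or.inr (Or.inr (Or.inl ⟨r1, h1, h0, h2⟩))))
  · exact Or.inr (Or.inr (Or.inr (Or.inr (Or.inr (Or.inl ⟨r2, h2, h1, h0⟩)))))
  · exact Or.inl ⟨hp, h0, h1, h2⟩

end pat

section cnt
variable {n : ℕ}

/-- the vertices of a colour -/
def cl (κ : Bool) (c : Fin n → Bool) : Finset (Fin n) := univ.filter fun v => c v = κ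

theorem mem_cl {κ : Bool} {c : Fin n → Bool} {v : Fin n} : v ∈ cl κ c ↔ c v = κ := by
  unfold cl
  rw [mem_filter]
  exact ⟨fun h => h.2, fun h => ⟨mem_univ _, h⟩⟩

theorem cl_add (κ : Bool) (c : Fin n → Bool) : (cl κ c).card + (cl (!κ) c).card = n := by
  have h : cl (!κ) c = (cl κ c)ᶜ := by
    ext v
    rw [mem_compl, mem_cl, mem_cl]
    cases c v <;> cases κ <;> simp
  rw [h, card_compl, Fintype.card_fin]
  have := card_le_univ (cl κ c)
  rw [Fintype.card_fin] at this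
  omega

/-- tuples and products -/
theorem ct_prod (R : (Fin 3 → Fin n) → Prop) (S : Finset (Fin n × Fin n × Fin n))
    (h : ∀ p, R p → (p 0, p 1, p 2) ∈ S) : ct R ≤ S.card := by
  refine card_le_card_of_injOn (fun p => (p 0, p 1, p 2)) ?_ ?_
  · intro p hp
    exact mem_coe.mpr (h p (mem_ts.mp (mem_coe.mp hp)))
  · intro p _ p' _ hpp
    simp only [Prod.mk.injEq] at hpp
    funext i
    fin_cases i
    · exact hpp.1
    · exact hpp.2.1
    · exact hpp.2.2

/-- the ordered pairs with different values -/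
theorem pairs_ne (B : Finset (Fin n)) (w : Fin n → Bool) :
    2 * ((B ×ˢ B).filter fun y => (w y.1 ^^ w y.2) = true).card ≤ B.card ^ 2 := by
  have h1 : ((B ×ˢ B).filter fun y => (w y.1 ^^ w y.2) = true) ⊆
      ((B.filter fun y => w y = true) ×ˢ (B.filter fun y => w y = false)) ∪
      ((B.filter fun y => w y = false) ×ˢ (B.filter fun y => w y = true)) := by
    rintro ⟨y, y'⟩ hy
    simp only [mem_filter, mem_product, mem_union] at hy ⊢
    obtain ⟨⟨h1, h2⟩, h3⟩ := hy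
    cases hw : w y <;> cases hw' : w y' <;> simp_all
  have h2 := (card_le_card h1).trans (card_union_le _ _)
  rw [card_product, card_product] at h2
  have h3 : (B.filter fun y => w y = true).card + (B.filter fun y => w y = false).card =
      B.card := by
    have := card_filter_add_card_filter_not (s := B) (fun y => w y = true)
    rw [← this]
    congr 2
    ext y
    simp
  set s := (B.filter fun y => w y = true).card
  set t := (B.filter fun y => w y = false).card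
  have h4 : 4 * (s * t) ≤ (s + t) ^ 2 := by
    have h5 : 4 * ((s : ℤ) * t) ≤ ((s : ℤ) + t) ^ 2 := by nlinarith [sq_nonneg ((s : ℤ) - t)]
    exact_mod_cast h5
  rw [← h3]
  have h6 : t * s = s * t := mul_comm _ _
  omega

/-- the triples with one vertex of the own colour -/
theorem one_own (κ : Bool) (c : Fin n → Bool) (z : Fin n → Fin n → Bool) (m : Fin n → Bool) :
    2 * ct (fun p : Fin 3 → Fin n => pat1 κ c p ∧
      (m (p 1) ^^ m (p 2) ^^ z (p 0) (p 1) ^^ z (p 0) (p 2)) = true) ≤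
      (cl κ c).card * (cl (!κ) c).card ^ 2 := by
  classical
  set A := cl κ c
  set B := cl (!κ) c
  set S : Finset (Fin n × Fin n × Fin n) := (A ×ˢ (B ×ˢ B)).filter fun x =>
    ((m x.2.1 ^^ z x.1 x.2.1) ^^ (m x.2.2 ^^ z x.1 x.2.2)) = true with hS
  have h1 : ct (fun p : Fin 3 → Fin n => pat1 κ c p ∧
      (m (p 1) ^^ m (p 2) ^^ z (p 0) (p 1) ^^ z (p 0) (p 2)) = true) ≤ S.card := by
    refine ct_prod _ _ fun p hp => ?_
    rw [hS, mem_filter, mem_product, mem_product]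
    refine ⟨⟨mem_cl.mpr hp.1.1, mem_cl.mpr hp.1.2.1, mem_cl.mpr hp.1.2.2⟩, ?_⟩
    have := hp.2
    revert this
    generalize m (p 1) = x1
    generalize m (p 2) = x2
    generalize z (p 0) (p 1) = x3
    generalize z (p 0) (p 2) = x4
    cases x1 <;> cases x2 <;> cases x3 <;> cases x4 <;> simp
  have h2 : S.card = ∑ x ∈ A, ((B ×ˢ B).filter fun y =>
      ((fun v => m v ^^ z x v) y.1 ^^ (fun v => m v ^^ z x v) y.2) = true).card := by
    rw [hS, card_filter, sum_product]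
    refine sum_congr rfl fun x _ => ?_
    rw [card_filter]
  have h3 : 2 * S.card ≤ A.card * B.card ^ 2 := by
    rw [h2, mul_sum]
    refine (sum_le_card_nsmul A _ _ fun x _ => pairs_ne B fun v => m v ^^ z x v).trans
      (le_of_eq ?_)
    rw [smul_eq_mul]
  omega

/-- the ordered flipped pairs -/
def flips (κ : Bool) (c : Fin n → Bool) (g : Fin n → Fin n → Bool) : Finset (Fin n × Fin n) :=
  (cl κ c ×ˢ cl κ c).filter fun x => x.1 ≠ x.2 ∧ g x.1 x.2 = true

/-- the triples with two vertices of the own colour, not flipped -/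
theorem two_own (κ : Bool) (c : Fin n → Bool) (g : Fin n → Fin n → Bool) :
    ct (fun p : Fin 3 → Fin n => Function.Injective p ∧ pat2 κ c p ∧ g (p 0) (p 1) = false) +
      (flips κ c g).card * (cl (!κ) c).card ≤ (cl κ c).card ^ 2 * (cl (!κ) c).card := by
  classical
  set A := cl κ c with hA
  set B := cl (!κ) c with hB
  have h1 : ct (fun p : Fin 3 → Fin n => Function.Injective p ∧ pat2 κ c p ∧
      g (p 0) (p 1) = false) ≤ (((A ×ˢ A) \ flips κ c g) ×ˢ B).card := by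
    refine card_le_card_of_injOn (fun p => ((p 0, p 1), p 2)) ?_ ?_
    · intro p hp
      obtain ⟨hi, hp1, hp2⟩ := mem_ts.mp (mem_coe.mp hp)
      rw [mem_coe, mem_product, mem_sdiff, mem_product]
      refine ⟨⟨⟨mem_cl.mpr hp1.1, mem_cl.mpr hp1.2.1⟩, ?_⟩, mem_cl.mpr hp1.2.2⟩
      intro hf
      unfold flips at hf
      rw [mem_filter] at hf
      have := hf.2.2
      simp only at this
      rw [hp2] at this
      exact absurd this (by simp)
    · intro p _ p' _ hpp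
      simp only [Prod.mk.injEq] at hpp
      funext i
      fin_cases i
      · exact hpp.1.1
      · exact hpp.1.2
      · exact hpp.2
  have hsub : flips κ c g ⊆ A ×ˢ A := filter_subset _ _
  rw [card_product, card_sdiff_of_subset hsub, card_product] at h1
  have h2 := card_le_card hsub
  rw [card_product] at h2
  calc _ ≤ (A.card * A.card - (flips κ c g).card) * B.card + (flips κ c g).card * B.card :=
        Nat.add_le_add_right h1 _
    _ = A.card ^ 2 * B.card := by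
        rw [← Nat.add_mul, Nat.sub_add_cancel h2, sq]

/-- the triples with three vertices of the own colour -/
theorem three_own (κ : Bool) (c : Fin n → Bool) (g : Fin n → Fin n → Bool)
    (hg : ∀ a a', g a a' = g a' a) :
    (cl κ c).card * (ct (fun p : Fin 3 → Fin n => Function.Injective p ∧ pat3 κ c p ∧
      (g (p 0) (p 1) ^^ g (p 0) (p 2) ^^ g (p 1) (p 2)) = true) : ℝ) +
        2 * ((flips κ c g).card : ℝ) ^ 2 ≤ 3 * ((flips κ c g).card : ℝ) * (cl κ c).card ^ 2 := by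
  classical
  set A := cl κ c with hA
  set f : Fin n → Fin n → ℝ := fun x y => if x ≠ y ∧ g x y = true then 1 else 0 with hf
  have fsym : ∀ x y, f x y = f y x := by
    intro x y
    rw [hf]
    simp only
    rw [hg x y]
    congr 1
    rw [ne_comm]
  have f01 : ∀ x y, f x y = 0 ∨ f x y = 1 := by
    intro x y
    rw [hf]
    simp only
    split_ifs
    · exact Or.inr rfl
    · exact Or.inl rfl
  have hF : ((flips κ c g).card : ℝ) = ∑ x ∈ A, ∑ y ∈ A, f x y := by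
    unfold flips
    rw [card_filter]
    push_cast
    rw [sum_product]
  set q : Fin n → Fin n → Fin n → ℝ := fun x y w =>
    f x y + f x w + f y w - 2 / 3 * (f x y * f x w + f x y * f y w + f x w * f y w) with hq
  have q0 : ∀ x y w, 0 ≤ q x y w := by
    intro x y w
    rw [hq]
    simp only
    rcases f01 x y with h1 | h1 <;> rcases f01 x w with h2 | h2 <;> rcases f01 y w with h3 | h3 <;>
      rw [h1, h2, h3] <;> norm_num
  -- the sum over tuples
  have h1 : (ct (fun p : Fin 3 → Fin n => Function.Injective p ∧ pat3 κ c p ∧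
      (g (p 0) (p 1) ^^ g (p 0) (p 2) ^^ g (p 1) (p 2)) = true) : ℝ) ≤
      ∑ x ∈ A, ∑ y ∈ A, ∑ w ∈ A, q x y w := by
    set S : Finset (Fin n × Fin n × Fin n) := (A ×ˢ (A ×ˢ A)).filter fun x =>
      x.1 ≠ x.2.1 ∧ x.1 ≠ x.2.2 ∧ x.2.1 ≠ x.2.2 ∧
        (g x.1 x.2.1 ^^ g x.1 x.2.2 ^^ g x.2.1 x.2.2) = true with hS
    have k1 : ct (fun p : Fin 3 → Fin n => Function.Injective p ∧ pat3 κ c p ∧
        (g (p 0) (p 1) ^^ g (p 0) (p 2) ^^ g (p 1) (p 2)) = true) ≤ S.card := by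
      refine ct_prod _ _ fun p hp => ?_
      rw [hS, mem_filter, mem_product, mem_product]
      refine ⟨⟨mem_cl.mpr hp.2.1.1, mem_cl.mpr hp.2.1.2.1, mem_cl.mpr hp.2.1.2.2⟩,
        fun h => absurd (hp.1 h) (by decide), fun h => absurd (hp.1 h) (by decide),
        fun h => absurd (hp.1 h) (by decide), hp.2.2⟩
    refine le_trans (Nat.cast_le.mpr k1) ?_
    rw [hS, card_filter]
    push_cast
    rw [sum_product]
    refine sum_le_sum fun x _ => ?_
    rw [sum_product]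
    refine sum_le_sum fun y _ => sum_le_sum fun w _ => ?_
    split_ifs with h
    · obtain ⟨h1, h2, h3, h4⟩ := h
      simp only at h1 h2 h3 h4
      have e1 : f x y = if g x y = true then 1 else 0 := by
        rw [hf]; simp only [h1, ne_eq, not_false_eq_true, true_and]
      have e2 : f x w = if g x w = true then 1 else 0 := by
        rw [hf]; simp only [h2, ne_eq, not_false_eq_true, true_and]
      have e3 : f y w = if g y w = true then 1 else 0 := by
        rw [hf]; simp only [h3, ne_eq, not_false_eq_true, true_and]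
      rw [hq]
      simp only
      rw [e1, e2, e3]
      revert h4
      cases g x y <;> cases g x w <;> cases g y w <;> norm_num
    · exact q0 x y w
  -- the value of the sum
  set dg : Fin n → ℝ := fun x => ∑ y ∈ A, f x y with hdg
  have h2 : ∑ x ∈ A, ∑ y ∈ A, ∑ w ∈ A, q x y w =
      3 * (A.card : ℝ) * (∑ x ∈ A, dg x) - 2 * ∑ x ∈ A, dg x ^ 2 := by
    have t1 : ∑ x ∈ A, ∑ y ∈ A, ∑ w ∈ A, f x y = (A.card : ℝ) * ∑ x ∈ A, dg x := by
      rw [mul_sum]
      refine sum_congr rfl fun x _ => ?_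
      rw [hdg]
      simp only
      rw [mul_sum]
      refine sum_congr rfl fun y _ => ?_
      rw [sum_const, nsmul_eq_mul]
    have t2 : ∑ x ∈ A, ∑ y ∈ A, ∑ w ∈ A, f x w = (A.card : ℝ) * ∑ x ∈ A, dg x := by
      rw [mul_sum]
      refine sum_congr rfl fun x _ => ?_
      rw [sum_const, nsmul_eq_mul]
    have t3 : ∑ x ∈ A, ∑ y ∈ A, ∑ w ∈ A, f y w = (A.card : ℝ) * ∑ x ∈ A, dg x := by
      rw [sum_const, nsmul_eq_mul]
    have t4 : ∑ x ∈ A, ∑ y ∈ A, ∑ w ∈ A, f x y * f x w = ∑ x ∈ A, dg x ^ 2 := by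
      refine sum_congr rfl fun x _ => ?_
      rw [sq, hdg]
      simp only
      rw [sum_mul_sum]
    have t5 : ∑ x ∈ A, ∑ y ∈ A, ∑ w ∈ A, f x y * f y w = ∑ x ∈ A, dg x ^ 2 := by
      rw [sum_comm]
      refine sum_congr rfl fun y _ => ?_
      rw [sq, hdg]
      simp only
      rw [sum_mul_sum]
      refine sum_congr rfl fun x _ => sum_congr rfl fun w _ => ?_
      rw [fsym x y]
    have t6 : ∑ x ∈ A, ∑ y ∈ A, ∑ w ∈ A, f x w * f y w = ∑ x ∈ A, dg x ^ 2 := by
      have : ∑ x ∈ A, ∑ y ∈ A, ∑ w ∈ A, f x w * f y w =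
          ∑ w ∈ A, ∑ x ∈ A, ∑ y ∈ A, f w x * f w y := by
        calc ∑ x ∈ A, ∑ y ∈ A, ∑ w ∈ A, f x w * f y w
            = ∑ x ∈ A, ∑ w ∈ A, ∑ y ∈ A, f x w * f y w := sum_congr rfl fun x _ => sum_comm
          _ = ∑ w ∈ A, ∑ x ∈ A, ∑ y ∈ A, f x w * f y w := sum_comm
          _ = ∑ w ∈ A, ∑ x ∈ A, ∑ y ∈ A, f w x * f w y := by
              refine sum_congr rfl fun w _ => sum_congr rfl fun x _ => sum_congr rfl fun y _ => ?_
              rw [fsym x w, fsym y w]
      rw [this]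
      exact t4
    have s4 : ∑ x ∈ A, ∑ y ∈ A, ∑ w ∈ A, 2 / 3 * (f x y * f x w) =
        2 / 3 * ∑ x ∈ A, dg x ^ 2 := by
      rw [← t4]
      simp only [mul_sum]
    have s5 : ∑ x ∈ A, ∑ y ∈ A, ∑ w ∈ A, 2 / 3 * (f x y * f y w) =
        2 / 3 * ∑ x ∈ A, dg x ^ 2 := by
      rw [← t5]
      simp only [mul_sum]
    have s6 : ∑ x ∈ A, ∑ y ∈ A, ∑ w ∈ A, 2 / 3 * (f x w * f y w) =
        2 / 3 * ∑ x ∈ A, dg x ^ 2 := by
      rw [← t6]
      simp only [mul_sum]
    have e : ∀ x y w, q x y w = f x y + f x w + f y w -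
        2 / 3 * (f x y * f x w) - 2 / 3 * (f x y * f y w) - 2 / 3 * (f x w * f y w) := by
      intro x y w
      rw [hq]
      ring
    simp only [e, sum_sub_distrib, sum_add_distrib]
    rw [t1, t2, t3, s4, s5, s6]
    ring
  have h3 : (∑ x ∈ A, dg x) ^ 2 ≤ (A.card : ℝ) * ∑ x ∈ A, dg x ^ 2 :=
    sq_sum_le_card_mul_sum_sq
  have h4 : ((flips κ c g).card : ℝ) = ∑ x ∈ A, dg x := hF
  rw [h4]
  rw [h2] at h1
  have ha : (0 : ℝ) ≤ A.card := Nat.cast_nonneg _
  have h5 := mul_le_mul_of_nonneg_left h1 ha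
  nlinarith [h5, h3]

end cnt

end Pool.Agent.Lib.MP_afdd4d_co.VS
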