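import Pool.Agent.Lib.MP_afdd4d_co.VS.Cnt
import Pool.Agent.Lib.MP_afdd4d_co.K9.VSBase

/-!
MP_afdd4d_co, vertex part: Giraud's structures.
-/

set_option autoImplicit false

namespace Pool.Agent.Lib.MP_afdd4d_co.VS

open Finset
open Pool.Agent.Lib.MP_afdd4d_co.K9.Star (gir girB oddB)
open Pool.Agent.Lib.MP_afdd4d_co.K8 (bz)

section gen
variable {V : Type*} [DecidableEq V]

/-- the number of vertices of the second colour among four vertices -/
theorem cnt4 (c : V → Bool) {p q r s : V} (hpq : p ≠ q) (hpr : p ≠ r) (hps : p ≠ s)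
    (hqr : q ≠ r) (hqs : q ≠ s) (hrs : r ≠ s) :
    (({p, q, r, s} : Finset V).filter fun x => c x = true).card
      = (c p).toNat + (c q).toNat + (c r).toNat + (c s).toNat := by
  rw [card_filter, sum_insert (by simp [hpq, hpr, hps]), sum_insert (by simp [hqr, hqs]),
    sum_insert (by simp [hrs]), sum_singleton]
  cases c p <;> cases c q <;> cases c r <;> cases c s <;> simp

/-- the structure without flips -/
abbrev g0B (χ : V → Bool) (M : V → V → Bool) (Q : Finset V) : Bool :=
  girB χ M (fun _ => false) (fun _ => false) Q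

theorem odd_zero {ι : Type*} (s : Finset ι) : oddB (∑ _q ∈ s, bz false) = false := by
  have e : bz false = 0 := by decide
  rw [e, sum_const_zero]
  decide

theorem g0B_val (χ : V → Bool) (M : V → V → Bool) (Q : Finset V) (k : ℕ)
    (hk : (Q.filter fun v => χ v = true).card = k) (h2 : k ≠ 2) :
    g0B χ M Q = decide (k = 1 ∨ k = 3) := by
  unfold g0B girB
  rw [hk, odd_zero]
  rcases Nat.lt_or_ge k 4 with h | h
  · interval_cases k
    · simp
    · simp
    · exact absurd rfl h2
    · simp
  · rw [if_neg (by omega), if_neg (by omega), if_neg (by omega), if_neg (by omega),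
      decide_eq_false (by omega)]

theorem g0B_two (χ : V → Bool) (M : V → V → Bool) {a a' b b' : V} (h1 : a ≠ a') (h2 : b ≠ b')
    (ca : χ a = false) (ca' : χ a' = false) (cb : χ b = true) (cb' : χ b' = true) :
    g0B χ M {a, a', b, b'} = (M a b ^^ M a b' ^^ M a' b ^^ M a' b') := by
  have ne : ∀ {x y : V}, χ x = false → χ y = true → x ≠ y := by
    rintro x y hx hy rfl
    rw [hx] at hy
    exact absurd hy (by simp)
  have hk := cnt4 χ h1 (ne ca cb) (ne ca cb') (ne ca' cb) (ne ca' cb') h2
  rw [ca, ca', cb, cb'] at hk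
  have e1 : (({a, a', b, b'} : Finset V).filter fun v => χ v = false) = {a, a'} := by
    ext v
    simp only [mem_filter, mem_insert, mem_singleton]
    constructor
    · rintro ⟨h | h | h | h, hv⟩
      · exact Or.inl h
      · exact Or.inr h
      · rw [h, cb] at hv
        exact absurd hv (by simp)
      · rw [h, cb'] at hv
        exact absurd hv (by simp)
    · rintro (h | h)
      · exact ⟨Or.inl h, h ▸ ca⟩
      · exact ⟨Or.inr (Or.inl h), h ▸ ca'⟩
  have e2 : (({a, a', b, b'} : Finset V).filter fun v => χ v = true) = {b, b'} := by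
    ext v
    simp only [mem_filter, mem_insert, mem_singleton]
    constructor
    · rintro ⟨h | h | h | h, hv⟩
      · rw [h, ca] at hv
        exact absurd hv (by simp)
      · rw [h, ca'] at hv
        exact absurd hv (by simp)
      · exact Or.inl h
      · exact Or.inr h
    · rintro (h | h)
      · exact ⟨Or.inr (Or.inr (Or.inl h)), h ▸ cb⟩
      · exact ⟨Or.inr (Or.inr (Or.inr h)), h ▸ cb'⟩
  unfold g0B girB
  rw [hk, e1, e2, sum_pair h1, sum_pair h2, sum_pair h2, if_neg (by decide), if_neg (by decide),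
    if_pos (by decide)]
  generalize M a b = x1
  generalize M a b' = x2
  generalize M a' b = x3
  generalize M a' b' = x4
  revert x1 x2 x3 x4
  decide

theorem rf_false (χ : V → Bool) (M : V → V → Bool) : Rf' false χ (g0B χ M) M := by
  have ne : ∀ {x y : V}, χ x = false → χ y = true → x ≠ y := by
    rintro x y hx hy rfl
    rw [hx] at hy
    exact absurd hy (by simp)
  refine { e3 := ?_, e2 := ?_, e31 := ?_, e04 := ?_ }
  · intro a b b' b'' h1 h2 h3 ca cb cb' cb''
    have hk := cnt4 χ (ne ca cb) (ne ca cb') (ne ca cb'') h1 h2 h3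
    rw [ca, cb, cb', cb''] at hk
    rw [g0B_val χ M _ 3 hk (by decide)]
    rfl
  · intro u u' b b' h1 h2 cu cu' cb cb'
    exact g0B_two χ M h1 h2 cu cu' cb cb'
  · intro a a' a'' b h1 h2 h3 ca ca' ca'' cb
    have hk := cnt4 χ h1 h2 (ne ca cb) h3 (ne ca' cb) (ne ca'' cb)
    rw [ca, ca', ca'', cb] at hk
    rw [g0B_val χ M _ 1 hk (by decide)]
    rfl
  · intro b0 b1 b2 b3 h1 h2 h3 h4 h5 h6 c0 c1 c2 c3
    have hk := cnt4 χ h1 h2 h3 h4 h5 h6
    rw [c0, c1, c2, c3] at hk
    rw [g0B_val χ M _ 4 hk (by decide)]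
    rfl

theorem rf_true (χ : V → Bool) (M : V → V → Bool) :
    Rf' true χ (g0B χ M) (fun u b => M b u) := by
  have ne : ∀ {x y : V}, χ x = true → χ y = false → x ≠ y := by
    rintro x y hx hy rfl
    rw [hx] at hy
    exact absurd hy (by simp)
  refine { e3 := ?_, e2 := ?_, e31 := ?_, e04 := ?_ }
  · intro a b b' b'' h1 h2 h3 ca cb cb' cb''
    have hk := cnt4 χ (ne ca cb) (ne ca cb') (ne ca cb'') h1 h2 h3
    rw [ca, cb, cb', cb''] at hk
    rw [g0B_val χ M _ 1 hk (by decide)]
    rfl
  · intro u u' b b' h1 h2 cu cu' cb cb'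
    have e : ({u, u', b, b'} : Finset V) = {b, b', u, u'} := by
      ext v
      simp only [mem_insert, mem_singleton]
      tauto
    rw [e, g0B_two χ M h2 h1 cb cb' cu cu']
    generalize M b u = x1
    generalize M b u' = x2
    generalize M b' u = x3
    generalize M b' u' = x4
    cases x1 <;> cases x2 <;> cases x3 <;> cases x4 <;> rfl
  · intro a a' a'' b h1 h2 h3 ca ca' ca'' cb
    have hk := cnt4 χ h1 h2 (ne ca cb) h3 (ne ca' cb) (ne ca'' cb)
    rw [ca, ca', ca'', cb] at hk
    rw [g0B_val χ M _ 3 hk (by decide)]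
    rfl
  · intro b0 b1 b2 b3 h1 h2 h3 h4 h5 h6 c0 c1 c2 c3
    have hk := cnt4 χ h1 h2 h3 h4 h5 h6
    rw [c0, c1, c2, c3] at hk
    rw [g0B_val χ M _ 0 hk (by decide)]
    rfl

theorem rf_any (κ : Bool) (χ : V → Bool) (M : V → V → Bool) :
    Rf' κ χ (g0B χ M) (zz κ M) := by
  cases κ
  · exact rf_false χ M
  · exact rf_true χ M

end gen

end Pool.Agent.Lib.MP_afdd4d_co.VS
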