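import Pool.Agent.Lib.MP_afdd4d_co.VS.Seven

/-!
MP_afdd4d_co, vertex part: seven points, Giraud windows.
-/

set_option autoImplicit false

namespace Pool.Agent.Lib.MP_afdd4d_co.VS

open Finset

variable {V : Type*} [DecidableEq V]
variable {κ : Bool} {c : V → Bool} {e l : Finset V → Bool} {z : V → V → Bool}

/-- one of two vertices -/
theorem pickU (hR : Rf κ c e z) {u0 u1 a b0 b1 : V} (cu0 : c u0 = κ) (cu1 : c u1 = κ)
    (ca : c a = κ) (c0 : c b0 = !κ) (c1 : c b1 = !κ) (h01u : u0 ≠ u1) (h0a : u0 ≠ a)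
    (h1a : u1 ≠ a) (h01 : b0 ≠ b1) (hm : Mk e l u0 u1 b0 b1)
    (F : FG c e l {u0, u1, a, b0, b1}) : ∃ u, (u = u0 ∨ u = u1) ∧ Mk e l u a b0 b1 := by
  have P0 := pk_of_mk F (u := u0) (u' := u1) (b := b0) (b' := b1) (by simp) (by simp) (by simp)
    (by simp) h01u h01 cu0 cu1 c0 c1 hm
  by_cases q : e {u0, a, b0, b1} = true
  · exact ⟨u0, Or.inl rfl,
      mk_of_pk P0 (by simp) (by simp) (by simp) (by simp) h0a h01 cu0 ca c0 c1 q⟩
  · have q' : e {u1, a, b0, b1} = true := by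
      have g1 := hm.1
      rw [hR.e2 u0 u1 b0 b1 h01u h01 cu0 cu1 c0 c1] at g1
      rw [hR.e2 u0 a b0 b1 h0a h01 cu0 ca c0 c1] at q
      rw [hR.e2 u1 a b0 b1 h1a h01 cu1 ca c0 c1]
      revert g1 q
      generalize z u0 b0 = x1
      generalize z u0 b1 = x2
      generalize z u1 b0 = x3
      generalize z u1 b1 = x4
      generalize z a b0 = x5
      generalize z a b1 = x6
      cases x1 <;> cases x2 <;> cases x3 <;> cases x4 <;> cases x5 <;> cases x6 <;> simp
    exact ⟨u1, Or.inr rfl,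
      mk_of_pk P0 (by simp) (by simp) (by simp) (by simp) h1a h01 cu1 ca c0 c1 q'⟩

/-- one of two vertices of the other colour -/
theorem pickB (hR : Rf κ c e z) {u a b0 b1 b : V} (cu : c u = κ) (ca : c a = κ)
    (c0 : c b0 = !κ) (c1 : c b1 = !κ) (cb : c b = !κ) (hua : u ≠ a) (h01 : b0 ≠ b1)
    (h0b : b0 ≠ b) (h1b : b1 ≠ b) (hm : Mk e l u a b0 b1)
    (F : FG c e l {u, a, b0, b1, b}) : ∃ y, (y = b0 ∨ y = b1) ∧ Mk e l u a y b := by
  have P0 := pk_of_mk F (u := u) (u' := a) (b := b0) (b' := b1) (by simp) (by simp) (by simp)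
    (by simp) hua h01 cu ca c0 c1 hm
  by_cases q : e {u, a, b0, b} = true
  · exact ⟨b0, Or.inl rfl,
      mk_of_pk P0 (by simp) (by simp) (by simp) (by simp) hua h0b cu ca c0 cb q⟩
  · have q' : e {u, a, b1, b} = true := by
      have g1 := hm.1
      rw [hR.e2 u a b0 b1 hua h01 cu ca c0 c1] at g1
      rw [hR.e2 u a b0 b hua h0b cu ca c0 cb] at q
      rw [hR.e2 u a b1 b hua h1b cu ca c1 cb]
      revert g1 q
      generalize z u b0 = x1
      generalize z u b1 = x2
      generalize z a b0 = x3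
      generalize z a b1 = x4
      generalize z u b = x5
      generalize z a b = x6
      cases x1 <;> cases x2 <;> cases x3 <;> cases x4 <;> cases x5 <;> cases x6 <;> simp
    exact ⟨b1, Or.inr rfl,
      mk_of_pk P0 (by simp) (by simp) (by simp) (by simp) hua h1b cu ca c1 cb q'⟩

/-- two vertices of the own colour and one of the other -/
theorem sevenAAB (hR : Rf κ c e z) {u0 u1 a a' b0 b1 b : V} (cu0 : c u0 = κ) (cu1 : c u1 = κ)
    (ca : c a = κ) (ca' : c a' = κ) (c0 : c b0 = !κ) (c1 : c b1 = !κ) (cb : c b = !κ)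
    (h01u : u0 ≠ u1) (h0a : u0 ≠ a) (h1a : u1 ≠ a) (h0a' : u0 ≠ a') (h1a' : u1 ≠ a')
    (haa : a ≠ a') (h01 : b0 ≠ b1) (h0b : b0 ≠ b) (h1b : b1 ≠ b) (hm : Mk e l u0 u1 b0 b1)
    (F : ∀ W ⊆ ({u0, u1, a, a', b0, b1, b} : Finset V), W.card = 5 → GI c e l W) :
    l {a, a', b} = true := by
  have n : ∀ {x y : V}, c x = κ → c y = !κ → x ≠ y := fun h1 h2 => ne_of_col h1 h2
  have F5 : ∀ {p q r s t : V}, p ≠ q → p ≠ r → p ≠ s → p ≠ t → q ≠ r → q ≠ s → q ≠ t → r ≠ s →
      r ≠ t → s ≠ t → ({p, q, r, s, t} : Finset V) ⊆ {u0, u1, a, a', b0, b1, b} →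
      GI c e l {p, q, r, s, t} := by
    intro p q r s t h1 h2 h3 h4 h5 h6 h7 h8 h9 h10 hs
    exact F _ hs (card5 h1 h2 h3 h4 h5 h6 h7 h8 h9 h10)
  have W0 := F5 h01u h0a (n cu0 c0) (n cu0 c1) h1a (n cu1 c0) (n cu1 c1) (n ca c0) (n ca c1) h01
    (by intro y hy; simp only [mem_insert, mem_singleton] at hy ⊢; tauto)
  obtain ⟨u, hu, mu⟩ := pickU hR cu0 cu1 ca c0 c1 h01u h0a h1a h01 hm W0.fg
  have cu : c u = κ := by rcases hu with rfl | rfl <;> assumption
  have hua : u ≠ a := by rcases hu with rfl | rfl <;> assumption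
  have hua' : u ≠ a' := by rcases hu with rfl | rfl <;> assumption
  have S : ∀ y, y = u ∨ y = a ∨ y = a' ∨ y = b0 ∨ y = b1 ∨ y = b →
      y ∈ ({u0, u1, a, a', b0, b1, b} : Finset V) := by
    intro y hy
    simp only [mem_insert, mem_singleton]
    rcases hy with rfl | hy
    · tauto
    · tauto
  have F1 := F5 hua (n cu c0) (n cu c1) (n cu cb) (n ca c0) (n ca c1) (n ca cb) h01 h0b h1b
    (by intro y hy; apply S; simp only [mem_insert, mem_singleton] at hy; tauto)
  obtain ⟨d, hd, md⟩ := pickB hR cu ca c0 c1 cb hua h01 h0b h1b mu F1.fg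
  have cd : c d = !κ := by rcases hd with rfl | rfl <;> assumption
  have hdb : d ≠ b := by rcases hd with rfl | rfl <;> assumption
  have F2 := F5 hua hua' (n cu cd) (n cu cb) haa (n ca cd) (n ca cb) (n ca' cd) (n ca' cb) hdb
    (by
      intro y hy
      apply S
      simp only [mem_insert, mem_singleton] at hy
      rcases hy with h | h | h | h | h
      · tauto
      · tauto
      · tauto
      · rcases hd with rfl | rfl <;> tauto
      · tauto)
  have G2 := gk_of_mk F2 (u := u) (u' := a) (b := d) (b' := b) (by simp) (by simp) (by simp)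
    (by simp) hua hdb cu ca cd cb md
  exact G2.2.1 a (by simp) a' (by simp) b (by simp) haa ca ca' cb

/-- three vertices of the other colour -/
theorem sevenBBB (hR : Rf κ c e z) {u0 u1 b0 b1 b b' b'' : V} (cu0 : c u0 = κ) (cu1 : c u1 = κ)
    (c0 : c b0 = !κ) (c1 : c b1 = !κ) (cb : c b = !κ) (cb' : c b' = !κ) (cb'' : c b'' = !κ)
    (h01u : u0 ≠ u1) (h01 : b0 ≠ b1) (h0b : b0 ≠ b) (h1b : b1 ≠ b) (h0b' : b0 ≠ b')
    (h1b' : b1 ≠ b') (h0b'' : b0 ≠ b'') (h1b'' : b1 ≠ b'') (hbb' : b ≠ b') (hbb'' : b ≠ b'')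
    (hb'b'' : b' ≠ b'') (hm : Mk e l u0 u1 b0 b1)
    (F : ∀ W ⊆ ({u0, u1, b0, b1, b, b', b''} : Finset V), W.card = 5 → GI c e l W) :
    l {b, b', b''} = true := by
  have n : ∀ {x y : V}, c x = κ → c y = !κ → x ≠ y := fun h1 h2 => ne_of_col h1 h2
  have F5 : ∀ {p q r s t : V}, p ≠ q → p ≠ r → p ≠ s → p ≠ t → q ≠ r → q ≠ s → q ≠ t → r ≠ s →
      r ≠ t → s ≠ t → ({p, q, r, s, t} : Finset V) ⊆ {u0, u1, b0, b1, b, b', b''} →
      GI c e l {p, q, r, s, t} := by
    intro p q r s t h1 h2 h3 h4 h5 h6 h7 h8 h9 h10 hs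
    exact F _ hs (card5 h1 h2 h3 h4 h5 h6 h7 h8 h9 h10)
  have F1 := F5 h01u (n cu0 c0) (n cu0 c1) (n cu0 cb) (n cu1 c0) (n cu1 c1) (n cu1 cb) h01 h0b h1b
    (by intro y hy; simp only [mem_insert, mem_singleton] at hy ⊢; tauto)
  obtain ⟨d, hd, md⟩ := pickB hR cu0 cu1 c0 c1 cb h01u h01 h0b h1b hm F1.fg
  have cd : c d = !κ := by rcases hd with rfl | rfl <;> assumption
  have hdb : d ≠ b := by rcases hd with rfl | rfl <;> assumption
  have hdb' : d ≠ b' := by rcases hd with rfl | rfl <;> assumption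
  have hdb'' : d ≠ b'' := by rcases hd with rfl | rfl <;> assumption
  have S : ∀ y, y = u0 ∨ y = u1 ∨ y = d ∨ y = b ∨ y = b' ∨ y = b'' →
      y ∈ ({u0, u1, b0, b1, b, b', b''} : Finset V) := by
    intro y hy
    simp only [mem_insert, mem_singleton]
    rcases hd with rfl | rfl <;> tauto
  have F2 := F5 h01u (n cu0 cd) (n cu0 cb) (n cu0 cb') (n cu1 cd) (n cu1 cb) (n cu1 cb') hdb hdb'
    hbb' (by intro y hy; apply S; simp only [mem_insert, mem_singleton] at hy; tauto)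
  have F3 := F5 h01u (n cu0 cd) (n cu0 cb) (n cu0 cb'') (n cu1 cd) (n cu1 cb) (n cu1 cb'') hdb
    hdb'' hbb'' (by intro y hy; apply S; simp only [mem_insert, mem_singleton] at hy; tauto)
  have F4 := F5 h01u (n cu0 cb) (n cu0 cb') (n cu0 cb'') (n cu1 cb) (n cu1 cb') (n cu1 cb'') hbb'
    hbb'' hb'b'' (by intro y hy; apply S; simp only [mem_insert, mem_singleton] at hy; tauto)
  have F6 := F5 (n cu0 cd) (n cu0 cb) (n cu0 cb') (n cu0 cb'') hdb hdb' hdb'' hbb' hbb'' hb'b''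
    (by intro y hy; apply S; simp only [mem_insert, mem_singleton] at hy; tauto)
  have P2 := pk_of_mk F2.fg (u := u0) (u' := u1) (b := d) (b' := b) (by simp) (by simp) (by simp)
    (by simp) h01u hdb cu0 cu1 cd cb md
  have P3 := pk_of_mk F3.fg (u := u0) (u' := u1) (b := d) (b' := b) (by simp) (by simp) (by simp)
    (by simp) h01u hdb cu0 cu1 cd cb md
  by_cases q1 : e {u0, u1, b, b'} = true
  · have m1 := mk_of_pk (e := e) P2 (a := u0) (a' := u1) (d := b) (d' := b') (by simp) (by simp)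
      (by simp) (by simp) h01u hbb' cu0 cu1 cb cb' q1
    have P4 := pk_of_mk F4.fg (u := u0) (u' := u1) (b := b) (b' := b') (by simp) (by simp)
      (by simp) (by simp) h01u hbb' cu0 cu1 cb cb' m1
    exact P4.2 b (by simp) b' (by simp) b'' (by simp) hbb' hbb'' hb'b'' cb cb' cb''
  by_cases q2 : e {u0, u1, b, b''} = true
  · have m1 := mk_of_pk (e := e) P3 (a := u0) (a' := u1) (d := b) (d' := b'') (by simp) (by simp)
      (by simp) (by simp) h01u hbb'' cu0 cu1 cb cb'' q2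
    have P4 := pk_of_mk F4.fg (u := u0) (u' := u1) (b := b) (b' := b'') (by simp) (by simp)
      (by simp) (by simp) h01u hbb'' cu0 cu1 cb cb'' m1
    exact P4.2 b (by simp) b' (by simp) b'' (by simp) hbb' hbb'' hb'b'' cb cb' cb''
  have k := P2.2 d (by simp) b (by simp) b' (by simp) hdb hdb' hbb' cd cb cb'
  have G6 : GK κ c l {u0, d, b, b', b''} := by
    have h : ¬ GK (!κ) c l {u0, d, b, b', b''} := by
      intro hG
      have := hG.2.2 d (by simp) b (by simp) b' (by simp) hdb hdb' hbb' cd cb cb'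
      rw [k] at this
      exact absurd this (by simp)
    cases κ
    · exact F6.2.resolve_right h
    · exact F6.2.resolve_left h
  exact G6.1.2 b (by simp) b' (by simp) b'' (by simp) hbb' hbb'' hb'b'' cb cb' cb''

/-- three vertices of the own colour -/
theorem sevenAAA (hR : Rf κ c e z) {u0 u1 a a' a'' b0 b1 : V} (cu0 : c u0 = κ) (cu1 : c u1 = κ)
    (ca : c a = κ) (ca' : c a' = κ) (ca'' : c a'' = κ) (c0 : c b0 = !κ) (c1 : c b1 = !κ)
    (h01u : u0 ≠ u1) (h0a : u0 ≠ a) (h1a : u1 ≠ a) (h0a' : u0 ≠ a') (h1a' : u1 ≠ a')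
    (h0a'' : u0 ≠ a'') (h1a'' : u1 ≠ a'') (haa' : a ≠ a') (haa'' : a ≠ a'') (ha'a'' : a' ≠ a'')
    (h01 : b0 ≠ b1) (hm : Mk e l u0 u1 b0 b1)
    (F : ∀ W ⊆ ({u0, u1, a, a', a'', b0, b1} : Finset V), W.card = 5 → GI c e l W) :
    l {a, a', a''} = false := by
  have n : ∀ {x y : V}, c x = κ → c y = !κ → x ≠ y := fun h1 h2 => ne_of_col h1 h2
  have F5 : ∀ {p q r s t : V}, p ≠ q → p ≠ r → p ≠ s → p ≠ t → q ≠ r → q ≠ s → q ≠ t → r ≠ s →
      r ≠ t → s ≠ t → ({p, q, r, s, t} : Finset V) ⊆ {u0, u1, a, a', a'', b0, b1} →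
      GI c e l {p, q, r, s, t} := by
    intro p q r s t h1 h2 h3 h4 h5 h6 h7 h8 h9 h10 hs
    exact F _ hs (card5 h1 h2 h3 h4 h5 h6 h7 h8 h9 h10)
  have W0 := F5 h01u h0a (n cu0 c0) (n cu0 c1) h1a (n cu1 c0) (n cu1 c1) (n ca c0) (n ca c1) h01
    (by intro y hy; simp only [mem_insert, mem_singleton] at hy ⊢; tauto)
  obtain ⟨u, hu, mu⟩ := pickU hR cu0 cu1 ca c0 c1 h01u h0a h1a h01 hm W0.fg
  have cu : c u = κ := by rcases hu with rfl | rfl <;> assumption
  have hua : u ≠ a := by rcases hu with rfl | rfl <;> assumption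
  have hua' : u ≠ a' := by rcases hu with rfl | rfl <;> assumption
  have hua'' : u ≠ a'' := by rcases hu with rfl | rfl <;> assumption
  have S : ∀ y, y = u ∨ y = a ∨ y = a' ∨ y = a'' ∨ y = b0 ∨ y = b1 →
      y ∈ ({u0, u1, a, a', a'', b0, b1} : Finset V) := by
    intro y hy
    simp only [mem_insert, mem_singleton]
    rcases hy with rfl | hy
    · tauto
    · tauto
  have F2 := F5 hua hua' (n cu c0) (n cu c1) haa' (n ca c0) (n ca c1) (n ca' c0) (n ca' c1) h01
    (by intro y hy; apply S; simp only [mem_insert, mem_singleton] at hy; tauto)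
  have F3 := F5 hua hua'' (n cu c0) (n cu c1) haa'' (n ca c0) (n ca c1) (n ca'' c0) (n ca'' c1)
    h01 (by intro y hy; apply S; simp only [mem_insert, mem_singleton] at hy; tauto)
  have F4 := F5 haa' haa'' (n ca c0) (n ca c1) ha'a'' (n ca' c0) (n ca' c1) (n ca'' c0)
    (n ca'' c1) h01
    (by intro y hy; apply S; simp only [mem_insert, mem_singleton] at hy; tauto)
  have F6 := F5 hua hua' hua'' (n cu c0) haa' haa'' (n ca c0) ha'a'' (n ca' c0) (n ca'' c0)
    (by intro y hy; apply S; simp only [mem_insert, mem_singleton] at hy; tauto)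
  have G2 := gk_of_mk F2 (u := u) (u' := a) (b := b0) (b' := b1) (by simp) (by simp) (by simp)
    (by simp) hua h01 cu ca c0 c1 mu
  have G3 := gk_of_mk F3 (u := u) (u' := a) (b := b0) (b' := b1) (by simp) (by simp) (by simp)
    (by simp) hua h01 cu ca c0 c1 mu
  by_cases q1 : e {a, a', b0, b1} = true
  · have m1 := mk_of_pk (e := e) G2.1 (a := a) (a' := a') (d := b0) (d' := b1) (by simp) (by simp)
      (by simp) (by simp) haa' h01 ca ca' c0 c1 q1
    have G4 := gk_of_mk F4 (u := a) (u' := a') (b := b0) (b' := b1) (by simp) (by simp)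
      (by simp) (by simp) haa' h01 ca ca' c0 c1 m1
    exact G4.2.2 a (by simp) a' (by simp) a'' (by simp) haa' haa'' ha'a'' ca ca' ca''
  by_cases q2 : e {a, a'', b0, b1} = true
  · have m1 := mk_of_pk (e := e) G3.1 (a := a) (a' := a'') (d := b0) (d' := b1) (by simp)
      (by simp) (by simp) (by simp) haa'' h01 ca ca'' c0 c1 q2
    have G4 := gk_of_mk F4 (u := a) (u' := a'') (b := b0) (b' := b1) (by simp) (by simp)
      (by simp) (by simp) haa'' h01 ca ca'' c0 c1 m1
    exact G4.2.2 a (by simp) a' (by simp) a'' (by simp) haa' haa'' ha'a'' ca ca' ca''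
  have k := G2.2.2 u (by simp) a (by simp) a' (by simp) hua hua' haa' cu ca ca'
  have G6 : GK κ c l {u, a, a', a'', b0} := by
    have h : ¬ GK (!κ) c l {u, a, a', a'', b0} := by
      intro hG
      have := hG.1.2 u (by simp) a (by simp) a' (by simp) hua hua' haa' (by rw [cu]; simp)
        (by rw [ca]; simp) (by rw [ca']; simp)
      rw [k] at this
      exact absurd this (by simp)
    cases κ
    · exact F6.2.resolve_right h
    · exact F6.2.resolve_left h
  exact G6.2.2 a (by simp) a' (by simp) a'' (by simp) haa' haa'' ha'a'' ca ca' ca''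

end Pool.Agent.Lib.MP_afdd4d_co.VS
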