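import Pool.Agent.Lib.MP_afdd4d_co.VS.SevenB

/-!
MP_afdd4d_co, vertex part: seven points, flipped windows.
-/

set_option autoImplicit false

namespace Pool.Agent.Lib.MP_afdd4d_co.VS

open Finset

variable {V : Type*} [DecidableEq V]
variable {κ : Bool} {c : V → Bool} {e l : Finset V → Bool} {z : V → V → Bool}

/-- The other quadruples of the reference structure. -/
structure Rf' (κ : Bool) (c : V → Bool) (e : Finset V → Bool) (z : V → V → Bool) : Prop
    extends Rf κ c e z where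
  e31 : ∀ a a' a'' b : V, a ≠ a' → a ≠ a'' → a' ≠ a'' → c a = κ → c a' = κ → c a'' = κ →
    c b = !κ → e {a, a', a'', b} = true
  e04 : ∀ b0 b1 b2 b3 : V, b0 ≠ b1 → b0 ≠ b2 → b0 ≠ b3 → b1 ≠ b2 → b1 ≠ b3 → b2 ≠ b3 →
    c b0 = !κ → c b1 = !κ → c b2 = !κ → c b3 = !κ → e {b0, b1, b2, b3} = false

/-- two vertices of the own colour and one of the other -/
theorem sevenAAB' (hR : Rf κ c e z) {u0 u1 a a' b0 b1 b : V} (cu0 : c u0 = κ) (cu1 : c u1 = κ)
    (ca : c a = κ) (ca' : c a' = κ) (c0 : c b0 = !κ) (c1 : c b1 = !κ) (cb : c b = !κ)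
    (h01u : u0 ≠ u1) (h0a : u0 ≠ a) (h1a : u1 ≠ a) (h0a' : u0 ≠ a') (h1a' : u1 ≠ a')
    (haa : a ≠ a') (h01 : b0 ≠ b1) (h0b : b0 ≠ b) (h1b : b1 ≠ b) (hm : Mk e l u0 u1 b0 b1)
    (F : ∀ W ⊆ ({u0, u1, a, a', b0, b1, b} : Finset V), W.card = 5 → FG c e l W) :
    l {a, a', b} = l {a, a', b0} := by
  have n : ∀ {x y : V}, c x = κ → c y = !κ → x ≠ y := fun h1 h2 => ne_of_col h1 h2
  have F5 : ∀ {p q r s t : V}, p ≠ q → p ≠ r → p ≠ s → p ≠ t → q ≠ r → q ≠ s → q ≠ t → r ≠ s →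
      r ≠ t → s ≠ t → ({p, q, r, s, t} : Finset V) ⊆ {u0, u1, a, a', b0, b1, b} →
      FG c e l {p, q, r, s, t} := by
    intro p q r s t h1 h2 h3 h4 h5 h6 h7 h8 h9 h10 hs
    exact F _ hs (card5 h1 h2 h3 h4 h5 h6 h7 h8 h9 h10)
  have W0 := F5 h01u h0a (n cu0 c0) (n cu0 c1) h1a (n cu1 c0) (n cu1 c1) (n ca c0) (n ca c1) h01
    (by intro y hy; simp only [mem_insert, mem_singleton] at hy ⊢; tauto)
  obtain ⟨u, hu, mu⟩ := pickU hR cu0 cu1 ca c0 c1 h01u h0a h1a h01 hm W0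
  have cu : c u = κ := by rcases hu with rfl | rfl <;> assumption
  have hua : u ≠ a := by rcases hu with rfl | rfl <;> assumption
  have hua' : u ≠ a' := by rcases hu with rfl | rfl <;> assumption
  have S : ∀ y, y = u ∨ y = a ∨ y = a' ∨ y = b0 ∨ y = b1 ∨ y = b →
      y ∈ ({u0, u1, a, a', b0, b1, b} : Finset V) := by
    intro y hy
    simp only [mem_insert, mem_singleton]
    rcases hy with rfl | hy
    · tauto
    · tauto
  have F1 := F5 hua (n cu c0) (n cu c1) (n cu cb) (n ca c0) (n ca c1) (n ca cb) h01 h0b h1b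
    (by intro y hy; apply S; simp only [mem_insert, mem_singleton] at hy; tauto)
  obtain ⟨d, hd, md⟩ := pickB hR cu ca c0 c1 cb hua h01 h0b h1b mu F1
  have cd : c d = !κ := by rcases hd with rfl | rfl <;> assumption
  have hdb : d ≠ b := by rcases hd with rfl | rfl <;> assumption
  have F2 := F5 hua hua' (n cu cd) (n cu cb) haa (n ca cd) (n ca cb) (n ca' cd) (n ca' cb) hdb
    (by
      intro y hy
      apply S
      simp only [mem_insert, mem_singleton] at hy
      rcases hy with h | h | h | h | h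
      · tauto
      · tauto
      · tauto
      · rcases hd with rfl | rfl <;> tauto
      · tauto)
  have F3 := F5 hua hua' (n cu c0) (n cu c1) haa (n ca c0) (n ca c1) (n ca' c0) (n ca' c1) h01
    (by intro y hy; apply S; simp only [mem_insert, mem_singleton] at hy; tauto)
  have P2 := pk_of_mk F2 (u := u) (u' := a) (b := d) (b' := b) (by simp) (by simp) (by simp)
    (by simp) hua hdb cu ca cd cb md
  have P3 := pk_of_mk F3 (u := u) (u' := a) (b := b0) (b' := b1) (by simp) (by simp) (by simp)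
    (by simp) hua h01 cu ca c0 c1 mu
  have k2 := P2.1 a (by simp) a' (by simp) d (by simp) b (by simp) haa hdb ca ca' cd cb
  have k3 := P3.1 a (by simp) a' (by simp) b0 (by simp) b1 (by simp) haa h01 ca ca' c0 c1
  rcases hd with rfl | rfl
  · exact k2.symm
  · rw [← k2, k3]

/-- three vertices of the other colour -/
theorem sevenBBB' (hR : Rf' κ c e z) {u0 u1 b0 b1 b b' b'' : V} (cu0 : c u0 = κ)
    (cu1 : c u1 = κ) (c0 : c b0 = !κ) (c1 : c b1 = !κ) (cb : c b = !κ) (cb' : c b' = !κ)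
    (cb'' : c b'' = !κ)
    (h01u : u0 ≠ u1) (h01 : b0 ≠ b1) (h0b : b0 ≠ b) (h1b : b1 ≠ b) (h0b' : b0 ≠ b')
    (h1b' : b1 ≠ b') (h0b'' : b0 ≠ b'') (h1b'' : b1 ≠ b'') (hbb' : b ≠ b') (hbb'' : b ≠ b'')
    (hb'b'' : b' ≠ b'') (hm : Mk e l u0 u1 b0 b1)
    (F : ∀ W ⊆ ({u0, u1, b0, b1, b, b', b''} : Finset V), W.card = 5 → FG c e l W) :
    l {b, b', b''} = true := by
  have n : ∀ {x y : V}, c x = κ → c y = !κ → x ≠ y := fun h1 h2 => ne_of_col h1 h2
  have F5 : ∀ {p q r s t : V}, p ≠ q → p ≠ r → p ≠ s → p ≠ t → q ≠ r → q ≠ s → q ≠ t → r ≠ s →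
      r ≠ t → s ≠ t → ({p, q, r, s, t} : Finset V) ⊆ {u0, u1, b0, b1, b, b', b''} →
      FG c e l {p, q, r, s, t} := by
    intro p q r s t h1 h2 h3 h4 h5 h6 h7 h8 h9 h10 hs
    exact F _ hs (card5 h1 h2 h3 h4 h5 h6 h7 h8 h9 h10)
  have F1 := F5 h01u (n cu0 c0) (n cu0 c1) (n cu0 cb) (n cu1 c0) (n cu1 c1) (n cu1 cb) h01 h0b h1b
    (by intro y hy; simp only [mem_insert, mem_singleton] at hy ⊢; tauto)
  obtain ⟨d, hd, md⟩ := pickB hR.toRf cu0 cu1 c0 c1 cb h01u h01 h0b h1b hm F1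
  have cd : c d = !κ := by rcases hd with rfl | rfl <;> assumption
  have hdb : d ≠ b := by rcases hd with rfl | rfl <;> assumption
  have hdb' : d ≠ b' := by rcases hd with rfl | rfl <;> assumption
  have hdb'' : d ≠ b'' := by rcases hd with rfl | rfl <;> assumption
  have S : ∀ y, y = u0 ∨ y = u1 ∨ y = d ∨ y = b ∨ y = b' ∨ y = b'' →
      y ∈ ({u0, u1, b0, b1, b, b', b''} : Finset V) := by
    intro y hy
    simp only [mem_insert, mem_singleton]
    rcases hd with rfl | rfl <;> tauto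
  have F2 := F5 h01u (n cu0 cd) (n cu0 cb) (n cu0 cb') (n cu1 cd) (n cu1 cb) (n cu1 cb') hdb hdb'
    hbb' (by intro y hy; apply S; simp only [mem_insert, mem_singleton] at hy; tauto)
  have F3 := F5 h01u (n cu0 cd) (n cu0 cb) (n cu0 cb'') (n cu1 cd) (n cu1 cb) (n cu1 cb'') hdb
    hdb'' hbb'' (by intro y hy; apply S; simp only [mem_insert, mem_singleton] at hy; tauto)
  have F4 := F5 h01u (n cu0 cb) (n cu0 cb') (n cu0 cb'') (n cu1 cb) (n cu1 cb') (n cu1 cb'') hbb'
    hbb'' hb'b'' (by intro y hy; apply S; simp only [mem_insert, mem_singleton] at hy; tauto)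
  have F6 := F5 (n cu0 cd) (n cu0 cb) (n cu0 cb') (n cu0 cb'') hdb hdb' hdb'' hbb' hbb'' hb'b''
    (by intro y hy; apply S; simp only [mem_insert, mem_singleton] at hy; tauto)
  have F7 := F5 h01u (n cu0 cd) (n cu0 cb') (n cu0 cb'') (n cu1 cd) (n cu1 cb') (n cu1 cb'') hdb'
    hdb'' hb'b'' (by intro y hy; apply S; simp only [mem_insert, mem_singleton] at hy; tauto)
  have P2 := pk_of_mk F2 (u := u0) (u' := u1) (b := d) (b' := b) (by simp) (by simp) (by simp)
    (by simp) h01u hdb cu0 cu1 cd cb md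
  have P3 := pk_of_mk F3 (u := u0) (u' := u1) (b := d) (b' := b) (by simp) (by simp) (by simp)
    (by simp) h01u hdb cu0 cu1 cd cb md
  by_cases q1 : e {u0, u1, b, b'} = true
  · have m1 := mk_of_pk (e := e) P2 (a := u0) (a' := u1) (d := b) (d' := b') (by simp) (by simp)
      (by simp) (by simp) h01u hbb' cu0 cu1 cb cb' q1
    have P4 := pk_of_mk F4 (u := u0) (u' := u1) (b := b) (b' := b') (by simp) (by simp)
      (by simp) (by simp) h01u hbb' cu0 cu1 cb cb' m1
    exact P4.2 b (by simp) b' (by simp) b'' (by simp) hbb' hbb'' hb'b'' cb cb' cb''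
  by_cases q2 : e {u0, u1, b, b''} = true
  · have m1 := mk_of_pk (e := e) P3 (a := u0) (a' := u1) (d := b) (d' := b'') (by simp) (by simp)
      (by simp) (by simp) h01u hbb'' cu0 cu1 cb cb'' q2
    have P4 := pk_of_mk F4 (u := u0) (u' := u1) (b := b) (b' := b'') (by simp) (by simp)
      (by simp) (by simp) h01u hbb'' cu0 cu1 cb cb'' m1
    exact P4.2 b (by simp) b' (by simp) b'' (by simp) hbb' hbb'' hb'b'' cb cb' cb''
  -- the vertex `d` is on the other side
  have q3 : e {u0, u1, d, b'} = true := by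
    have g1 := md.1
    rw [hR.e2 u0 u1 d b h01u hdb cu0 cu1 cd cb] at g1
    rw [hR.e2 u0 u1 b b' h01u hbb' cu0 cu1 cb cb'] at q1
    rw [hR.e2 u0 u1 d b' h01u hdb' cu0 cu1 cd cb']
    revert g1 q1
    generalize z u0 d = x1
    generalize z u1 d = x2
    generalize z u0 b = x3
    generalize z u1 b = x4
    generalize z u0 b' = x5
    generalize z u1 b' = x6
    cases x1 <;> cases x2 <;> cases x3 <;> cases x4 <;> cases x5 <;> cases x6 <;> simp
  have m3 := mk_of_pk (e := e) P2 (a := u0) (a' := u1) (d := d) (d' := b') (by simp) (by simp)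
    (by simp) (by simp) h01u hdb' cu0 cu1 cd cb' q3
  have P7 := pk_of_mk F7 (u := u0) (u' := u1) (b := d) (b' := b') (by simp) (by simp) (by simp)
    (by simp) h01u hdb' cu0 cu1 cd cb' m3
  have k1 := P2.2 d (by simp) b (by simp) b' (by simp) hdb hdb' hbb' cd cb cb'
  have k2 := P3.2 d (by simp) b (by simp) b'' (by simp) hdb hdb'' hbb'' cd cb cb''
  have k3 := P7.2 d (by simp) b' (by simp) b'' (by simp) hdb' hdb'' hb'b'' cd cb' cb''
  have k4 := F6.1 d (by simp) b (by simp) b' (by simp) b'' (by simp) hdb hdb' hdb'' hbb' hbb''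
    hb'b''
  rw [k1, k2, k3, hR.e04 d b b' b'' hdb hdb' hdb'' hbb' hbb'' hb'b'' cd cb cb' cb''] at k4
  revert k4
  generalize l {b, b', b''} = x
  cases x <;> simp

/-- three vertices of the own colour -/
theorem sevenAAA' (hR : Rf' κ c e z) {a a' a'' b0 : V} (ca : c a = κ) (ca' : c a' = κ)
    (ca'' : c a'' = κ) (c0 : c b0 = !κ) (haa' : a ≠ a') (haa'' : a ≠ a'') (ha'a'' : a' ≠ a'')
    {W : Finset V} (hE : EV e l W) (ha : a ∈ W) (ha' : a' ∈ W) (ha'' : a'' ∈ W) (h0 : b0 ∈ W) :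
    l {a, a', a''} = ((!l {a, a', b0}) ^^ (!l {a, a'', b0}) ^^ (!l {a', a'', b0})) := by
  have k := hE a ha a' ha' a'' ha'' b0 h0 haa' haa'' (ne_of_col ca c0) ha'a'' (ne_of_col ca' c0)
    (ne_of_col ca'' c0)
  rw [hR.e31 a a' a'' b0 haa' haa'' ha'a'' ca ca' ca'' c0] at k
  revert k
  generalize l {a, a', a''} = x1
  generalize l {a, a', b0} = x2
  generalize l {a, a'', b0} = x3
  generalize l {a', a'', b0} = x4
  cases x1 <;> cases x2 <;> cases x3 <;> cases x4 <;> simp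

end Pool.Agent.Lib.MP_afdd4d_co.VS
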