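import Pool.Agent.Lib.MP_afdd4d_co.VS.Avg

/-!
MP_afdd4d_co, vertex part: the structure of the link.
-/

set_option autoImplicit false

namespace Pool.Agent.Lib.MP_afdd4d_co.VS

open Finset

section st
variable {V : Type*} [DecidableEq V]

/-- The link has the structure given by the own colour `κ`, the row `m` and the flips `g` at a
triple. -/
def St (κ : Bool) (c : V → Bool) (l : Finset V → Bool) (z : V → V → Bool) (m : V → Bool)
    (g : V → V → Bool) (p : Fin 3 → V) : Prop :=
  (c (p 0) = κ → c (p 1) = !κ → c (p 2) = !κ →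
    l {p 0, p 1, p 2} = (m (p 1) ^^ m (p 2) ^^ z (p 0) (p 1) ^^ z (p 0) (p 2))) ∧
  (c (p 0) = κ → c (p 1) = κ → c (p 2) = !κ → l {p 0, p 1, p 2} = !g (p 0) (p 1)) ∧
  (c (p 0) = κ → c (p 1) = κ → c (p 2) = κ →
    l {p 0, p 1, p 2} = (g (p 0) (p 1) ^^ g (p 0) (p 2) ^^ g (p 1) (p 2))) ∧
  (c (p 0) = !κ → c (p 1) = !κ → c (p 2) = !κ → l {p 0, p 1, p 2} = true)

variable {κ : Bool} {c : V → Bool} {e l : Finset V → Bool} {z : V → V → Bool}

theorem st_of_mk (hR : Rf' κ c e z) {u0 u1 b0 b1 : V} (cu0 : c u0 = κ) (cu1 : c u1 = κ)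
    (c0 : c b0 = !κ) (c1 : c b1 = !κ) (h01u : u0 ≠ u1) (h01 : b0 ≠ b1)
    (hm : Mk e l u0 u1 b0 b1) (p : Fin 3 → V) (hp : Function.Injective p)
    (pu0 : ∀ i, u0 ≠ p i) (pu1 : ∀ i, u1 ≠ p i) (pb0 : ∀ i, b0 ≠ p i) (pb1 : ∀ i, b1 ≠ p i)
    (F : ∀ W : Finset V, (∀ y ∈ W, y = u0 ∨ y = u1 ∨ y = b0 ∨ y = b1 ∨ y = p 0 ∨ y = p 1 ∨
      y = p 2) → W.card = 5 → FG c e l W) :
    St κ c l z (row z l u0 b0) (fun a a' => !l {a, a', b0}) p := by
  have p01 : p 0 ≠ p 1 := fun h => absurd (hp h) (by decide)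
  have p02 : p 0 ≠ p 2 := fun h => absurd (hp h) (by decide)
  have p12 : p 1 ≠ p 2 := fun h => absurd (hp h) (by decide)
  refine ⟨fun h0 h1 h2 => ?_, fun h0 h1 h2 => ?_, fun h0 h1 h2 => ?_, fun h0 h1 h2 => ?_⟩
  · refine sevenA hR.toRf (b1 := b1) cu0 cu1 h0 c0 c1 h1 h2 h01u (pu0 0) (pu1 0) h01 (pb0 1)
      (pb0 2) (pb1 1) (pb1 2) p12 hm fun W hW => F W fun y hy => ?_
    have := hW hy
    simp only [mem_insert, mem_singleton] at this
    tauto
  · have := sevenAAB' hR.toRf (b1 := b1) cu0 cu1 h0 h1 c0 c1 h2 h01u (pu0 0) (pu1 0) (pu0 1)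
      (pu1 1) p01 h01 (pb0 2) (pb1 2) hm fun W hW => F W fun y hy => ?_
    · rw [this, Bool.not_not]
    · have := hW hy
      simp only [mem_insert, mem_singleton] at this
      tauto
  · have hW : FG c e l {p 0, p 1, p 2, b0, b1} := by
      refine F _ (fun y hy => ?_) (card5 p01 p02 (pb0 0).symm (pb1 0).symm p12 (pb0 1).symm
        (pb1 1).symm (pb0 2).symm (pb1 2).symm h01)
      simp only [mem_insert, mem_singleton] at hy
      tauto
    exact sevenAAA' hR h0 h1 h2 c0 p01 p02 p12 hW.1 (by simp) (by simp) (by simp) (by simp)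
  · refine sevenBBB' hR (b0 := b0) (b1 := b1) cu0 cu1 c0 c1 h0 h1 h2 h01u h01 (pb0 0) (pb1 0)
      (pb0 1) (pb1 1) (pb0 2) (pb1 2) p01 p02 p12 hm fun W hW => F W fun y hy => ?_
    have := hW hy
    simp only [mem_insert, mem_singleton] at this
    tauto

end st

/-- the bipartite graph seen from the own colour -/
def zz {V : Type*} (κ : Bool) (M : V → V → Bool) : V → V → Bool :=
  if κ = true then fun u b => M b u else M

section fin
variable {n : ℕ} {c : Fin n → Bool} {e l : Finset (Fin n) → Bool} {M : Fin n → Fin n → Bool}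

open Classical in
/-- the bases -/
noncomputable def bases (c : Fin n → Bool) (e : Finset (Fin n) → Bool) : Finset (Fin 4 → Fin n) :=
  univ.filter fun q => Function.Injective q ∧ c (q 0) = false ∧ c (q 1) = false ∧ c (q 2) = true ∧
    c (q 3) = true ∧ e {q 0, q 1, q 2, q 3} = true

open Classical in
/-- the triples at which the link does not have the structure -/
noncomputable def nSt (κ : Bool) (c : Fin n → Bool) (l : Finset (Fin n) → Bool)
    (z : Fin n → Fin n → Bool) (m : Fin n → Bool) (g : Fin n → Fin n → Bool) :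
    Finset (Fin 3 → Fin n) :=
  univ.filter fun p => Function.Injective p ∧ ¬ St κ c l z m g p

theorem append_inj {α : Type*} {k m : ℕ} (q : Fin k → α) (p : Fin m → α)
    (hq : Function.Injective q) (hp : Function.Injective p) (hd : ∀ i j, q i ≠ p j) :
    Function.Injective (Fin.append q p) := by
  intro i j
  refine Fin.addCases (fun i => ?_) (fun i => ?_) i <;>
    refine Fin.addCases (fun j => ?_) (fun j => ?_) j
  · intro h
    rw [Fin.append_left, Fin.append_left] at h
    rw [hq h]
  · intro h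
    rw [Fin.append_left, Fin.append_right] at h
    exact absurd h (hd i j)
  · intro h
    rw [Fin.append_left, Fin.append_right] at h
    exact absurd h.symm (hd j i)
  · intro h
    rw [Fin.append_right, Fin.append_right] at h
    rw [hp h]

/-- The structure of the link. -/
theorem extract0 (hF : Rf' false c e M) (hT : Rf' true c e (fun u b => M b u))
    (hB : (bases c e).Nonempty) :
    ∃ (κ : Bool) (m : Fin n → Bool) (g : Fin n → Fin n → Bool), (∀ a a', g a a' = g a' a) ∧
      (nSt κ c l (zz κ M) m g).card * (bases c e).card ≤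
        21 * ((badT fun W => ¬ FG c e l W).card * n ^ 2) + 12 * n ^ 2 * (bases c e).card := by
  classical
  obtain ⟨q, hq, hqB⟩ := exists_base (fun W => ¬ FG c e l W) (bases c e) hB
  have hq' := hq
  unfold bases at hq'
  rw [mem_filter] at hq'
  obtain ⟨_, qi, q0, q1, q2, q3, qe⟩ := hq'
  have d01 : q 0 ≠ q 1 := fun h => absurd (qi h) (by decide)
  have d23 : q 2 ≠ q 3 := fun h => absurd (qi h) (by decide)
  have d02 : q 0 ≠ q 2 := fun h => absurd (qi h) (by decide)
  have d03 : q 0 ≠ q 3 := fun h => absurd (qi h) (by decide)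
  have d12 : q 1 ≠ q 2 := fun h => absurd (qi h) (by decide)
  have d13 : q 1 ≠ q 3 := fun h => absurd (qi h) (by decide)
  -- the windows of a good triple
  have win : ∀ p : Fin 3 → Fin n, Function.Injective p →
      p ∉ badP (fun W => ¬ FG c e l W) q → p ∉ meetP q →
      (∀ i j, q i ≠ p j) ∧ ∀ W : Finset (Fin n), (∀ y ∈ W, y = q 0 ∨ y = q 1 ∨ y = q 2 ∨ y = q 3 ∨
        y = p 0 ∨ y = p 1 ∨ y = p 2) → W.card = 5 → FG c e l W := by
    intro p hp hb hm
    have hd : ∀ i j, q i ≠ p j := by
      intro i j h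
      refine hm ?_
      unfold meetP
      rw [mem_filter]
      exact ⟨mem_univ _, i, j, h⟩
    refine ⟨hd, fun W hW hc => ?_⟩
    set s : Fin 7 → Fin n := Fin.append q p with hs
    have s0 : ∀ i : Fin 4, s (Fin.castAdd 3 i) = q i := fun i => Fin.append_left _ _ _
    have s1 : ∀ i : Fin 3, s (Fin.natAdd 4 i) = p i := fun i => Fin.append_right _ _ _
    have si : Function.Injective s := append_inj q p qi hp hd
    have hWs : W ⊆ univ.image s := by
      intro y hy
      rw [mem_image]
      rcases hW y hy with h | h | h | h | h | h | h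
      · exact ⟨Fin.castAdd 3 0, mem_univ _, by rw [s0, h]⟩
      · exact ⟨Fin.castAdd 3 1, mem_univ _, by rw [s0, h]⟩
      · exact ⟨Fin.castAdd 3 2, mem_univ _, by rw [s0, h]⟩
      · exact ⟨Fin.castAdd 3 3, mem_univ _, by rw [s0, h]⟩
      · exact ⟨Fin.natAdd 4 (0 : Fin 3), mem_univ _, by rw [s1, h]⟩
      · exact ⟨Fin.natAdd 4 (1 : Fin 3), mem_univ _, by rw [s1, h]⟩
      · exact ⟨Fin.natAdd 4 (2 : Fin 3), mem_univ _, by rw [s1, h]⟩
    obtain ⟨J, _, hJ⟩ := subset_image_iff.mp hWs
    have hJc : J.card = 5 := by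
      rw [← hc, ← hJ, card_image_of_injective _ si]
    by_contra hno
    refine hb (mem_badP_of _ q p (mem_badS_of _ s si J hJc ?_))
    rw [hJ]
    exact hno
  -- counting
  have count : ∀ (κ : Bool) (m : Fin n → Bool) (g : Fin n → Fin n → Bool),
      (∀ p : Fin 3 → Fin n, Function.Injective p →
        p ∉ badP (fun W => ¬ FG c e l W) q → p ∉ meetP q → St κ c l (zz κ M) m g p) →
      (nSt κ c l (zz κ M) m g).card * (bases c e).card ≤
        21 * ((badT fun W => ¬ FG c e l W).card * n ^ 2) + 12 * n ^ 2 * (bases c e).card := by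
    intro κ m g h
    have h1 : nSt κ c l (zz κ M) m g ⊆ badP (fun W => ¬ FG c e l W) q ∪ meetP q := by
      intro p hp
      unfold nSt at hp
      rw [mem_filter] at hp
      rw [mem_union]
      by_contra hno
      rw [not_or] at hno
      exact hp.2.2 (h p hp.2.1 hno.1 hno.2)
    have h2 := (card_le_card h1).trans (card_union_le _ _)
    have h3 := card_meetP q
    calc (nSt κ c l (zz κ M) m g).card * (bases c e).card
        ≤ ((badP (fun W => ¬ FG c e l W) q).card + 12 * n ^ 2) * (bases c e).card :=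
          Nat.mul_le_mul_right _ (by omega)
      _ = (badP (fun W => ¬ FG c e l W) q).card * (bases c e).card +
          12 * n ^ 2 * (bases c e).card := by ring
      _ ≤ _ := Nat.add_le_add_right hqB _
  by_cases hl : l {q 0, q 1, q 2} = l {q 0, q 1, q 3}
  · refine ⟨false, row M l (q 0) (q 2), fun a a' => !l {a, a', q 2}, fun a a' => ?_, ?_⟩
    · show (!l {a, a', q 2}) = !l {a', a, q 2}
      rw [l_swap l a a' (q 2)]
    · refine count _ _ _ fun p hp hb hm => ?_
      obtain ⟨hd, hW⟩ := win p hp hb hm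
      exact st_of_mk hF q0 q1 q2 q3 d01 d23 ⟨qe, hl⟩ p hp (hd 0) (hd 1) (hd 2) (hd 3)
        fun W h => hW W fun y hy => by have := h y hy; tauto
  · refine ⟨true, row (fun u b => M b u) l (q 2) (q 0), fun a a' => !l {a, a', q 0},
      fun a a' => ?_, ?_⟩
    · show (!l {a, a', q 0}) = !l {a', a, q 0}
      rw [l_swap l a a' (q 0)]
    · refine count _ _ _ fun p hp hb hm => ?_
      obtain ⟨hd, hW⟩ := win p hp hb hm
      have hmk : Mk e l (q 2) (q 3) (q 0) (q 1) := by
        have hFG : FG c e l {q 0, q 1, q 2, q 3, p 0} := by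
          refine hW _ (fun y hy => ?_) (card5 d01 d02 d03 (hd 0 0) d12 d13 (hd 1 0) d23 (hd 2 0)
            (hd 3 0))
          simp only [mem_insert, mem_singleton] at hy
          tauto
        have k := hFG.1 (q 0) (by simp) (q 1) (by simp) (q 2) (by simp) (q 3) (by simp) d01 d02 d03
          d12 d13 d23
        rw [qe] at k
        refine ⟨?_, ?_⟩
        · rw [← qe]
          congr 1
          ext y
          simp only [mem_insert, mem_singleton]
          tauto
        · rw [← l_rot l (q 0) (q 2) (q 3), ← l_rot l (q 1) (q 2) (q 3)]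
          revert k hl
          generalize l {q 0, q 1, q 2} = x1
          generalize l {q 0, q 1, q 3} = x2
          generalize l {q 0, q 2, q 3} = x3
          generalize l {q 1, q 2, q 3} = x4
          cases x1 <;> cases x2 <;> cases x3 <;> cases x4 <;> simp
      exact st_of_mk hT q2 q3 q0 q1 d23 d01 hmk p hp (hd 2) (hd 3) (hd 0) (hd 1)
        fun W h => hW W fun y hy => by have := h y hy; tauto

end fin

end Pool.Agent.Lib.MP_afdd4d_co.VS
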