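import Pool.Agent.Lib.MP_afdd4d_co.VS.Gir

/-!
MP_afdd4d_co, vertex part: a vertex with few bad windows and a large degree agrees with Giraud's
structure after a change of its colour and of its row.
-/

set_option autoImplicit false

namespace Pool.Agent.Lib.MP_afdd4d_co.VS

open Finset
open Pool.Agent.Lib.MP_afdd4d_co.K9.Star (gir girB oddB dec_gir)
open Pool.Agent.Lib.MP_afdd4d_co.K9.Star.VS (J updM bs base_count card_four_of_mem)

section fin
variable {n : ℕ}

/-- The link. -/
def lnk (H : Finset (Finset (Fin n))) (x : Fin n) : Finset (Finset (Fin n)) :=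
  ((univ : Finset (Fin n)).powersetCard 3).filter fun T => insert x T ∈ H

/-- The link as a function. -/
def lB (H : Finset (Finset (Fin n))) (x : Fin n) (T : Finset (Fin n)) : Bool :=
  decide (T ∈ lnk H x)

/-- Six tuples for every set of three vertices. -/
theorem six_mul (S : Finset (Finset (Fin n))) (hS : ∀ T ∈ S, T.card = 3)
    (R : (Fin 3 → Fin n) → Prop)
    (h : ∀ T ∈ S, ∀ p : Fin 3 → Fin n, Function.Injective p → univ.image p = T → R p) :
    6 * S.card ≤ ct R := by
  classical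
  have e6 : 6 * S.card = (S.attach ×ˢ (univ : Finset (Equiv.Perm (Fin 3)))).card := by
    rw [card_product, card_attach, card_univ, Fintype.card_perm, Fintype.card_fin]
    show 6 * S.card = S.card * 6
    ring
  rw [e6]
  refine card_le_card_of_injOn
    (fun y => (y.1.1.orderEmbOfFin (hS y.1.1 y.1.2)) ∘ y.2) ?_ ?_
  · rintro ⟨⟨T, hT⟩, σ⟩ _
    refine mem_coe.mpr (mem_ts.mpr (h T hT _ ?_ ?_))
    · exact (T.orderEmbOfFin (hS T hT)).injective.comp σ.injective
    · show univ.image ((T.orderEmbOfFin (hS T hT)) ∘ σ) = T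
      rw [← image_image, image_univ_of_surjective σ.surjective, image_orderEmbOfFin_univ]
  · rintro ⟨⟨T, hT⟩, σ⟩ _ ⟨⟨T', hT'⟩, σ'⟩ _ hy
    have hy' : (T.orderEmbOfFin (hS T hT)) ∘ σ = (T'.orderEmbOfFin (hS T' hT')) ∘ σ' := hy
    have e1 : T = T' := by
      have h1 : univ.image ((T.orderEmbOfFin (hS T hT)) ∘ σ) = T := by
        rw [← image_image, image_univ_of_surjective σ.surjective, image_orderEmbOfFin_univ]
      have h2 : univ.image ((T'.orderEmbOfFin (hS T' hT')) ∘ σ') = T' := by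
        rw [← image_image, image_univ_of_surjective σ'.surjective, image_orderEmbOfFin_univ]
      rw [← h1, hy', h2]
    subst e1
    have e2 : σ = σ' := by
      ext i
      have := congrFun hy' i
      exact congrArg Fin.val ((T.orderEmbOfFin (hS T hT)).injective this)
    rw [e2]

theorem card_img3 (p : Fin 3 → Fin n) (hp : Function.Injective p) :
    ({p 0, p 1, p 2} : Finset (Fin n)).card = 3 := by
  rw [← img3, card_image_of_injective _ hp, card_univ, Fintype.card_fin]

/-- The errors at a vertex. -/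
theorem J_bound (H : Finset (Finset (Fin n))) (h4 : ∀ e ∈ H, e.card = 4) (x : Fin n)
    (χ : Fin n → Bool) (M : Fin n → Fin n → Bool) (κ : Bool) (m : Fin n → Bool)
    (g : Fin n → Fin n → Bool) (hg : ∀ a a', g a a' = g a' a) :
    6 * J x H (Function.update χ x κ) (updM M x m) ≤
      8 * (nSt κ χ (lB H x) (zz κ M) m g).card + 3 * (flips κ χ g).card * n := by
  classical
  set χ' := Function.update χ x κ with hχ'
  set M' := updM M x m with hM'
  set gl : Finset (Fin n) → Bool := fun T => g0B χ' M' (insert x T) with hgl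
  set R : (Fin 3 → Fin n) → Prop := fun p => Function.Injective p ∧ (∀ i, p i ≠ x) ∧
    lB H x {p 0, p 1, p 2} ≠ gl {p 0, p 1, p 2} with hR
  have cx : χ' x = κ := by rw [hχ', Function.update_self]
  have cy : ∀ y, y ≠ x → χ' y = χ y := fun y hy => by rw [hχ', Function.update_of_ne hy]
  have hrf := rf_any κ χ' M'
  have nb : (!κ) ≠ κ := by cases κ <;> simp
  -- the number of quadruples
  have k1 : 6 * J x H χ' M' ≤ ct R := by
    have e1 : J x H χ' M' = (((symmDiff H (gir χ' M' (fun _ => false) (fun _ => false))).filter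
        fun Q => x ∈ Q).image fun Q => Q.erase x).card := by
      rw [card_image_of_injOn]
      · rfl
      · intro Q hQ Q' hQ' h
        rw [mem_coe, mem_filter] at hQ hQ'
        rw [← insert_erase hQ.2, ← insert_erase hQ'.2]
        have h' : Q.erase x = Q'.erase x := h
        rw [h']
    rw [e1]
    have hmem : ∀ T ∈ (((symmDiff H (gir χ' M' (fun _ => false) (fun _ => false))).filter
        fun Q => x ∈ Q).image fun Q => Q.erase x), x ∉ T ∧ T.card = 3 ∧
        insert x T ∈ symmDiff H (gir χ' M' (fun _ => false) (fun _ => false)) := by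
      intro T hT
      rw [mem_image] at hT
      obtain ⟨Q, hQ, rfl⟩ := hT
      rw [mem_filter] at hQ
      refine ⟨notMem_erase _ _, ?_, ?_⟩
      · rw [card_erase_of_mem hQ.2, card_four_of_mem h4 hQ.1]
      · rw [insert_erase hQ.2]
        exact hQ.1
    refine six_mul _ (fun T hT => (hmem T hT).2.1) R fun T hT p hp hpT => ?_
    obtain ⟨hx, hT3, hs⟩ := hmem T hT
    rw [img3] at hpT
    refine ⟨hp, fun i hi => hx ?_, ?_⟩
    · rw [← hpT, ← img3, mem_image]
      exact ⟨i, mem_univ _, hi⟩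
    · rw [hpT, hgl]
      simp only
      have hc : (insert x T).card = 4 := by rw [card_insert_of_notMem hx, hT3]
      unfold g0B
      rw [← dec_gir χ' M' (fun _ => false) (fun _ => false) (insert x T) hc]
      unfold lB
      have hl : T ∈ lnk H x ↔ insert x T ∈ H := by
        unfold lnk
        rw [mem_filter, mem_powersetCard]
        exact ⟨fun h => h.2, fun h => ⟨⟨subset_univ _, hT3⟩, h⟩⟩
      rw [mem_symmDiff] at hs
      intro he
      rw [decide_eq_decide, hl] at he
      tauto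
  refine k1.trans (err_bound (m := m) (g := g) hg _ _ rfl rfl R gl ?_ ?_ ?_ ?_ ?_ ?_)
  · intro σ p hp
    refine ⟨inj_perm σ hp.1, fun i => hp.2.1 (σ i), ?_⟩
    rw [set_perm]
    exact hp.2.2
  · intro p hp
    exact ⟨hp.1, hp.2.2⟩
  · intro p hp hc
    have d01 : p 0 ≠ p 1 := fun h => absurd (hp.1 h) (by decide)
    have d02 : p 0 ≠ p 2 := fun h => absurd (hp.1 h) (by decide)
    have d12 : p 1 ≠ p 2 := fun h => absurd (hp.1 h) (by decide)
    exact hrf.e3 x (p 0) (p 1) (p 2) d01 d02 d12 cx (by rw [cy _ (hp.2.1 0)]; exact hc.1)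
      (by rw [cy _ (hp.2.1 1)]; exact hc.2.1) (by rw [cy _ (hp.2.1 2)]; exact hc.2.2)
  · intro p hp hc
    have d01 : p 0 ≠ p 1 := fun h => absurd (hp.1 h) (by decide)
    have d02 : p 0 ≠ p 2 := fun h => absurd (hp.1 h) (by decide)
    have d12 : p 1 ≠ p 2 := fun h => absurd (hp.1 h) (by decide)
    have e := hrf.e2 x (p 0) (p 1) (p 2) (hp.2.1 0).symm d12 cx
      (by rw [cy _ (hp.2.1 0)]; exact hc.1)
      (by rw [cy _ (hp.2.1 1)]; exact hc.2.1) (by rw [cy _ (hp.2.1 2)]; exact hc.2.2)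
    have z0 : ∀ y, y ≠ x → zz κ M' x y = m y := by
      intro y hy
      cases κ
      · show updM M x m x y = m y
        unfold updM
        rw [if_pos rfl]
      · show updM M x m y x = m y
        unfold updM
        rw [if_neg hy, if_pos rfl]
    have z1 : ∀ y w, y ≠ x → w ≠ x → zz κ M' y w = zz κ M y w := by
      intro y w hy hw
      cases κ
      · show updM M x m y w = M y w
        unfold updM
        rw [if_neg hy, if_neg hw]
      · show updM M x m w y = M w y
        unfold updM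
        rw [if_neg hw, if_neg hy]
    show g0B χ' M' (insert x {p 0, p 1, p 2}) = _
    rw [e, z0 _ (hp.2.1 1), z0 _ (hp.2.1 2), z1 _ _ (hp.2.1 0) (hp.2.1 1),
      z1 _ _ (hp.2.1 0) (hp.2.1 2)]
  · intro p hp hc
    have d01 : p 0 ≠ p 1 := fun h => absurd (hp.1 h) (by decide)
    exact hrf.e31 x (p 0) (p 1) (p 2) (hp.2.1 0).symm (hp.2.1 1).symm d01 cx
      (by rw [cy _ (hp.2.1 0)]; exact hc.1)
      (by rw [cy _ (hp.2.1 1)]; exact hc.2.1) (by rw [cy _ (hp.2.1 2)]; exact hc.2.2)
  · intro p hp hc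
    have d01 : p 0 ≠ p 1 := fun h => absurd (hp.1 h) (by decide)
    have d02 : p 0 ≠ p 2 := fun h => absurd (hp.1 h) (by decide)
    have d12 : p 1 ≠ p 2 := fun h => absurd (hp.1 h) (by decide)
    have hrf' := rf_any (!κ) χ' M'
    exact hrf'.e04 x (p 0) (p 1) (p 2) (hp.2.1 0).symm (hp.2.1 1).symm (hp.2.1 2).symm d01 d02 d12
      (by rw [cx, Bool.not_not]) (by rw [cy _ (hp.2.1 0), hc.1, Bool.not_not])
      (by rw [cy _ (hp.2.1 1), hc.2.1, Bool.not_not])
      (by rw [cy _ (hp.2.1 2), hc.2.2, Bool.not_not])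

theorem bases_card (χ : Fin n → Bool) (M : Fin n → Fin n → Bool) :
    (bases χ (g0B χ M)).card = (bs χ M).card := by
  classical
  congr 1
  ext q
  unfold bases bs
  rw [mem_filter, mem_filter]
  refine and_congr_right fun _ => and_congr_right fun hq => ?_
  have hc : ({q 0, q 1, q 2, q 3} : Finset (Fin n)).card = 4 := by
    have e : ({q 0, q 1, q 2, q 3} : Finset (Fin n)) = univ.image q := by
      ext v
      simp only [mem_image, mem_univ, true_and, mem_insert, mem_singleton]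
      constructor
      · rintro (h | h | h | h)
        · exact ⟨0, h.symm⟩
        · exact ⟨1, h.symm⟩
        · exact ⟨2, h.symm⟩
        · exact ⟨3, h.symm⟩
      · rintro ⟨i, rfl⟩
        fin_cases i <;> simp
    rw [e, card_image_of_injective _ hq, card_univ, Fintype.card_fin]
  have hd := dec_gir χ M (fun _ => false) (fun _ => false) _ hc
  unfold g0B
  rw [← hd, decide_eq_true_iff]

/-- The vertex theorem. -/
theorem v1 (θ : ℝ) (hθ : 0 < θ) : ∃ η : ℝ, 0 < η ∧ ∃ N : ℕ, ∀ n : ℕ, N ≤ n →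
    ∀ (χ : Fin n → Bool) (M : Fin n → Fin n → Bool) (H : Finset (Finset (Fin n))) (x : Fin n),
      (∀ e ∈ H, e.card = 4) →
      ((11 / 16 : ℝ) - 1 / 100) * ((n.choose 4 : ℕ) : ℝ) ≤
        ((gir χ M (fun _ => false) (fun _ => false)).card : ℝ) →
      |(((univ : Finset (Fin n)).filter fun v => χ v = true).card : ℝ) - n / 2| ≤ η * n →
      ((badT fun W => ¬ FG χ (g0B χ M) (lB H x) W).card : ℝ) ≤ η * (n : ℝ) ^ 5 →
      ((11 / 96 : ℝ) - η) * (n : ℝ) ^ 3 ≤ ((lnk H x).card : ℝ) →
      ∃ (κ : Bool) (m : Fin n → Bool),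
        (J x H (Function.update χ x κ) (updM M x m) : ℝ) ≤ θ * (n : ℝ) ^ 3 := by
  classical
  set η : ℝ := min (1 / 4) ((θ / 1200) ^ 2) with hη
  have η0 : 0 < η := lt_min (by norm_num) (by positivity)
  have η1 : η ≤ 1 / 4 := min_le_left _ _
  have η2 : η ≤ (θ / 1200) ^ 2 := min_le_right _ _
  obtain ⟨N1, hN1⟩ := exists_nat_ge (12 / η)
  refine ⟨η, η0, max N1 300, fun n hn χ M H x h4 hG hs hT hL => ?_⟩
  have hn1 : N1 ≤ n := le_trans (le_max_left _ _) hn
  have hn2 : 300 ≤ n := le_trans (le_max_right _ _) hn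
  have hn0 : (0 : ℝ) < n := by
    have : 0 < n := by omega
    exact_mod_cast this
  have hηn : 12 ≤ η * n := by
    have h1 : 12 / η ≤ n := hN1.trans (by exact_mod_cast hn1)
    rw [div_le_iff₀ η0] at h1
    linarith
  have hB := base_count hn2 χ M hG
  rw [← bases_card] at hB
  have hBpos : (0 : ℝ) < ((bases χ (g0B χ M)).card : ℝ) := lt_of_lt_of_le (by positivity) hB
  have hBne : (bases χ (g0B χ M)).Nonempty := by
    rw [← card_pos]
    exact_mod_cast hBpos
  obtain ⟨κ, m, g, hg, hN⟩ := extract0 (l := lB H x) (rf_false χ M) (rf_true χ M) hBne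
  set N0 := (nSt κ χ (lB H x) (zz κ M) m g).card with hN0
  set B := (bases χ (g0B χ M)).card with hBdef
  set T := (badT fun W => ¬ FG χ (g0B χ M) (lB H x) W).card with hTdef
  -- the number of bad triples
  have hNr : (N0 : ℝ) * B ≤ 21 * (T * (n : ℝ) ^ 2) + 12 * (n : ℝ) ^ 2 * B := by exact_mod_cast hN
  have hN0' : (N0 : ℝ) ≤ 841 * η * (n : ℝ) ^ 3 := by
    have h1 : 21 * ((T : ℝ) * (n : ℝ) ^ 2) ≤ 840 * η * (n : ℝ) ^ 3 * B := by
      calc 21 * ((T : ℝ) * (n : ℝ) ^ 2) ≤ 21 * (η * (n : ℝ) ^ 5 * (n : ℝ) ^ 2) := by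
            have := mul_le_mul_of_nonneg_right hT (by positivity : (0 : ℝ) ≤ (n : ℝ) ^ 2)
            linarith
        _ = 840 * η * (n : ℝ) ^ 3 * ((n : ℝ) ^ 4 / 40) := by ring
        _ ≤ 840 * η * (n : ℝ) ^ 3 * B := mul_le_mul_of_nonneg_left hB (by positivity)
    have h2 : 12 * (n : ℝ) ^ 2 ≤ η * (n : ℝ) ^ 3 := by
      calc 12 * (n : ℝ) ^ 2 ≤ η * n * (n : ℝ) ^ 2 :=
            mul_le_mul_of_nonneg_right hηn (by positivity)
        _ = η * (n : ℝ) ^ 3 := by ring
    have h3 : 12 * (n : ℝ) ^ 2 * B ≤ η * (n : ℝ) ^ 3 * B :=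
      mul_le_mul_of_nonneg_right h2 hBpos.le
    have h4 : (N0 : ℝ) * B ≤ 841 * η * (n : ℝ) ^ 3 * B := by linarith
    exact le_of_mul_le_mul_right h4 hBpos
  -- the degree
  have hab := cl_add κ χ
  set a := (cl κ χ).card with ha
  set b := (cl (!κ) χ).card with hb
  have habr : (a : ℝ) + b = n := by exact_mod_cast hab
  have hsa : |(a : ℝ) - n / 2| ≤ η * n := by
    have e : (univ : Finset (Fin n)).filter (fun v => χ v = true) = cl true χ := rfl
    rw [e] at hs
    cases κ
    · have e2 : (a : ℝ) - n / 2 = -(((cl true χ).card : ℝ) - n / 2) := by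
        have : (b : ℝ) = ((cl true χ).card : ℝ) := rfl
        rw [← this]
        linarith
      rw [e2, abs_neg]
      exact hs
    · exact hs
  have ha0 : (0 : ℝ) < a := by
    have h1 := (abs_le.mp hsa).1
    have h2 : η * n ≤ 1 / 4 * n := mul_le_mul_of_nonneg_right η1 hn0.le
    linarith
  have ha0' : 0 < a := by exact_mod_cast ha0
  have hdeg := deg_bound (l := lB H x) (z := zz κ M) (m := m) hg a b (flips κ χ g).card N0 rfl rfl
    rfl rfl ha0'
  have hD : 6 * (lnk H x).card ≤ ct (fun p : Fin 3 → Fin n => Function.Injective p ∧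
      lB H x {p 0, p 1, p 2} = true) := by
    refine six_mul _ (fun T hT => ?_) _ fun T hT p hp hpT => ?_
    · unfold lnk at hT
      rw [mem_filter, mem_powersetCard] at hT
      exact hT.1.2
    · refine ⟨hp, ?_⟩
      rw [img3] at hpT
      rw [hpT]
      unfold lB
      exact decide_eq_true hT
  have hDr : (11 / 16 - 6 * η) * (n : ℝ) ^ 3 ≤ (ct (fun p : Fin 3 → Fin n =>
      Function.Injective p ∧ lB H x {p 0, p 1, p 2} = true) : ℝ) := by
    have h1 : 6 * ((lnk H x).card : ℝ) ≤ (ct (fun p : Fin 3 → Fin n =>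
      Function.Injective p ∧ lB H x {p 0, p 1, p 2} = true) : ℝ) := by exact_mod_cast hD
    have h2 := mul_le_mul_of_nonneg_left hL (by norm_num : (0 : ℝ) ≤ 6)
    linarith
  have hFa : ((flips κ χ g).card : ℝ) ≤ (a : ℝ) ^ 2 := by
    have h1 : (flips κ χ g).card ≤ (cl κ χ ×ˢ cl κ χ).card := card_le_card (filter_subset _ _)
    rw [card_product, ← sq] at h1
    exact_mod_cast h1
  have hF := flips_small hn0 habr ha0 (Nat.cast_nonneg _) hFa (by positivity : 0 ≤ 841 * η) η0.le
    (by linarith) hsa hN0' hDr hdeg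
  set F := (flips κ χ g).card with hFdef
  have hF2 : (F : ℝ) ^ 2 ≤ (θ / 20 * (n : ℝ) ^ 2) ^ 2 := by
    have h1 : (7 * η + 4 * (841 * η)) * (n : ℝ) ^ 4 = 3371 * (η * (n : ℝ) ^ 4) := by ring
    rw [h1] at hF
    have h2 : η * (n : ℝ) ^ 4 ≤ (θ / 1200) ^ 2 * (n : ℝ) ^ 4 :=
      mul_le_mul_of_nonneg_right η2 (by positivity)
    have h3 : (θ / 20 * (n : ℝ) ^ 2) ^ 2 = 3600 * ((θ / 1200) ^ 2 * (n : ℝ) ^ 4) := by ring
    rw [h3]
    have h4 : 0 ≤ (θ / 1200) ^ 2 * (n : ℝ) ^ 4 := by positivity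
    linarith
  have hF3 : (F : ℝ) ≤ θ / 20 * (n : ℝ) ^ 2 := abs_le_of_sq_le_sq' hF2 (by positivity) |>.2
  refine ⟨κ, m, ?_⟩
  have hJ := J_bound H h4 x χ M κ m g hg
  have hJr : 6 * (J x H (Function.update χ x κ) (updM M x m) : ℝ) ≤ 8 * N0 + 3 * F * n := by
    exact_mod_cast hJ
  have h5 : 3 * (F : ℝ) * n ≤ 3 * (θ / 20) * (n : ℝ) ^ 3 := by
    have := mul_le_mul_of_nonneg_right hF3 hn0.le
    nlinarith
  have h6 : η ≤ θ / 1200 * (1 / 2) := by
    rcases le_or_gt (θ / 1200) (1 / 2) with h | h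
    · refine η2.trans ?_
      rw [sq]
      exact mul_le_mul_of_nonneg_left h (by positivity)
    · refine η1.trans ?_
      linarith
  have h7 : 8 * (N0 : ℝ) ≤ 8 * (841 * (θ / 1200 * (1 / 2)) * (n : ℝ) ^ 3) := by
    have h8 : 841 * η * (n : ℝ) ^ 3 ≤ 841 * (θ / 1200 * (1 / 2)) * (n : ℝ) ^ 3 :=
      mul_le_mul_of_nonneg_right (by linarith) (by positivity)
    linarith
  have h9 : 0 ≤ θ * (n : ℝ) ^ 3 := by positivity
  nlinarith

end fin

end Pool.Agent.Lib.MP_afdd4d_co.VS
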